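import Pool.Agent.H722R2.AA.Main

/-!
# Block version of the pointwise Markov bound

If `A a` (`a ∈ T`) are disjoint blocks of coordinates and `f` is a bounded function of low degree
on the cube, then replacing one block at a time changes `f` by a bounded total amount.
-/

set_option autoImplicit false
set_option linter.unusedSectionVars false

namespace Pool.Agent.H746R2.AA

open Finset Polynomial Pool.Agent.H722R2.AA

section Block

variable {ι : Type*} [Fintype ι] [DecidableEq ι] {κ : Type*} [Fintype κ] [DecidableEq κ]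

lemma fc_eq_zero_of_indep (G : (κ → ℤˣ) → ℝ) (U : Finset κ) (a : κ) (ha : a ∈ U)
    (hG : ∀ u t, G (Function.update u a t) = G u) : fc G U = 0 := by
  unfold fc
  have key : ∑ x : κ → ℤˣ, G x * ∏ i ∈ U, sg x i = 0 := by
    refine Finset.sum_involution (fun x _ => Function.update x a (-(x a))) ?_ ?_ ?_ ?_
    · intro x _
      rw [hG]
      have h1 : ∏ i ∈ U, sg (Function.update x a (-(x a))) i = - ∏ i ∈ U, sg x i := by
        rw [sg_update, prod_update_mem U a ha, ← Finset.mul_prod_erase U (sg x) ha]
        unfold sg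
        push_cast
        ring
      rw [h1]; ring
    · intro x _ _ h
      have h2 := congrFun h a
      rw [Function.update_self] at h2
      rcases Int.units_eq_one_or (x a) with h3 | h3 <;> rw [h3] at h2 <;> revert h2 <;> decide
    · intro x _; exact Finset.mem_univ _
    · intro x _
      simp
  rw [key, zero_div]

/-- The block Markov bound. -/
lemma block_markov_signed (f : (ι → ℤˣ) → ℝ) (d : ℕ) (hd : ∀ S : Finset ι, d < S.card → fc f S = 0)
    (B : ℝ) (hB : ∀ x, |f x| ≤ B) (y z : ι → ℤˣ) (T : Finset κ) (A : κ → Finset ι)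
    (hA : ∀ a ∈ T, ∀ b ∈ T, a ≠ b → Disjoint (A a) (A b)) (T' : Finset κ) (hT' : T' ⊆ T) :
    |∑ a ∈ T', (f ((A a).piecewise z y) - f y)| ≤ 2 * (d : ℝ) ^ 2 * B := by
  classical
  let H : (κ → ℤˣ) → ℝ := fun u => f (fun i => if ∃ a ∈ T, i ∈ A a ∧ u a = -1 then z i else y i)
  have hHd : ∀ U : Finset κ, d < U.card → fc H U = 0 := by
    intro U hU
    let G : Finset ι → (κ → ℤˣ) → ℝ := fun S u =>
      ∏ i ∈ S, (sg (fun i => if ∃ a ∈ T, i ∈ A a ∧ u a = -1 then z i else y i) i)
    have h1 : ∀ u, H u = ∑ S : Finset ι, fc f S * G S u := by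
      intro u
      have := (ml_fc f (fun i => if ∃ a ∈ T, i ∈ A a ∧ u a = -1 then z i else y i)).symm
      simpa [H, G, ml] using this
    have h2 : fc H U = ∑ S : Finset ι, fc f S * fc (G S) U := by
      unfold fc at *
      simp_rw [h1]
      rw [Finset.sum_congr rfl (fun x _ => Finset.sum_mul _ _ _), Finset.sum_comm, Finset.sum_div]
      refine Finset.sum_congr rfl fun S _ => ?_
      rw [mul_div_assoc', Finset.mul_sum]
      congr 1
      refine Finset.sum_congr rfl fun x _ => ?_
      ring
    rw [h2]
    refine Finset.sum_eq_zero fun S _ => ?_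
    by_cases hS : d < S.card
    · rw [hd S hS, zero_mul]
    · push Not at hS
      -- the coordinates on which `G S` depends
      let D : Finset κ := T.filter fun a => (A a ∩ S).Nonempty
      have hDcard : D.card ≤ S.card := by
        have h3 : (D.biUnion fun a => A a ∩ S).card = ∑ a ∈ D, (A a ∩ S).card := by
          refine Finset.card_biUnion ?_
          intro a ha b hb hab
          have ha' := (Finset.mem_filter.1 ha).1
          have hb' := (Finset.mem_filter.1 hb).1
          exact (hA a ha' b hb' hab).mono Finset.inter_subset_left Finset.inter_subset_left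
        have h4 : D.card ≤ ∑ a ∈ D, (A a ∩ S).card := by
          rw [Finset.card_eq_sum_ones]
          refine Finset.sum_le_sum fun a ha => ?_
          exact Finset.card_pos.2 (Finset.mem_filter.1 ha).2
        rw [← h3] at h4
        refine h4.trans (Finset.card_le_card ?_)
        intro i hi
        obtain ⟨a, _, hi⟩ := Finset.mem_biUnion.1 hi
        exact (Finset.mem_inter.1 hi).2
      obtain ⟨a, haU, haD⟩ : ∃ a ∈ U, a ∉ D := by
        by_contra hcon
        push Not at hcon
        have := Finset.card_le_card (show U ⊆ D from hcon)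
        omega
      rw [fc_eq_zero_of_indep (G S) U a haU, mul_zero]
      intro u t
      refine Finset.prod_congr rfl fun i hi => ?_
      have hiff : (∃ b ∈ T, i ∈ A b ∧ Function.update u a t b = -1) ↔
          (∃ b ∈ T, i ∈ A b ∧ u b = -1) := by
        constructor
        · rintro ⟨b, hb, hib, hub⟩
          have hba : b ≠ a := by
            rintro rfl
            exact haD (Finset.mem_filter.2 ⟨hb, ⟨i, Finset.mem_inter.2 ⟨hib, hi⟩⟩⟩)
          rw [Function.update_of_ne hba] at hub
          exact ⟨b, hb, hib, hub⟩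
        · rintro ⟨b, hb, hib, hub⟩
          have hba : b ≠ a := by
            rintro rfl
            exact haD (Finset.mem_filter.2 ⟨hb, ⟨i, Finset.mem_inter.2 ⟨hib, hi⟩⟩⟩)
          exact ⟨b, hb, hib, by rw [Function.update_of_ne hba]; exact hub⟩
      simp only [sg, hiff]
  have hHB : ∀ v : κ → ℝ, IsSgn v → |ml (fc H) v| ≤ B := by
    intro v hv
    obtain ⟨u, rfl⟩ := exists_sg v hv
    rw [ml_fc]
    exact hB _
  have hM := markov_pt (fc H) d hHd B hHB (sg (1 : κ → ℤˣ)) (sg_isSgn _) T'
  have hterm : ∀ a ∈ T', sg (1 : κ → ℤˣ) a * dl (fc H) a (sg 1)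
      = -(f ((A a).piecewise z y) - f y) / 2 := by
    intro a ha
    rw [dl_fc]
    have e1 : H (Function.update 1 a 1) = f y := by
      simp only [H]
      congr 1
      funext i
      rw [if_neg]
      rintro ⟨b, _, _, hb⟩
      have : Function.update (1 : κ → ℤˣ) a 1 = 1 := by
        rw [Function.update_eq_self_iff]; rfl
      rw [this] at hb
      revert hb; simp
    have e2 : H (Function.update 1 a (-1)) = f ((A a).piecewise z y) := by
      simp only [H]
      congr 1
      funext i
      by_cases hi : i ∈ A a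
      · rw [Finset.piecewise_eq_of_mem _ _ _ hi, if_pos]
        exact ⟨a, hT' ha, hi, by rw [Function.update_self]⟩
      · rw [Finset.piecewise_eq_of_notMem _ _ _ hi, if_neg]
        rintro ⟨b, _, hib, hb⟩
        have hba : b ≠ a := by rintro rfl; exact hi hib
        rw [Function.update_of_ne hba] at hb
        revert hb; simp
    rw [e1, e2]
    simp [sg]
  rw [Finset.sum_congr rfl hterm, ← Finset.sum_div, Finset.sum_neg_distrib, abs_div, abs_neg,
    abs_two, div_le_iff₀ (by norm_num : (0:ℝ) < 2)] at hM
  linarith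

/-- The block Markov bound with absolute values, and different targets in the blocks. -/
lemma block_markov (f : (ι → ℤˣ) → ℝ) (d : ℕ) (hd : ∀ S : Finset ι, d < S.card → fc f S = 0)
    (B : ℝ) (hB : ∀ x, |f x| ≤ B) (y : ι → ℤˣ) (z : κ → ι → ℤˣ) (T : Finset κ)
    (A : κ → Finset ι) (hA : ∀ a ∈ T, ∀ b ∈ T, a ≠ b → Disjoint (A a) (A b)) :
    ∑ a ∈ T, |f ((A a).piecewise (z a) y) - f y| ≤ 4 * (d : ℝ) ^ 2 * B := by
  classical
  -- a common target
  let zz : ι → ℤˣ := fun i => if h : ∃ a ∈ T, i ∈ A a then z h.choose i else y i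
  have hzz : ∀ a ∈ T, (A a).piecewise (z a) y = (A a).piecewise zz y := by
    intro a ha
    funext i
    by_cases hi : i ∈ A a
    · rw [Finset.piecewise_eq_of_mem _ _ _ hi, Finset.piecewise_eq_of_mem _ _ _ hi]
      have h : ∃ a ∈ T, i ∈ A a := ⟨a, ha, hi⟩
      have hch := h.choose_spec
      have : h.choose = a := by
        by_contra hne
        exact Finset.disjoint_left.1 (hA _ hch.1 a ha hne) hch.2 hi
      simp only [zz, dif_pos h, this]
    · rw [Finset.piecewise_eq_of_notMem _ _ _ hi, Finset.piecewise_eq_of_notMem _ _ _ hi]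
  rw [Finset.sum_congr rfl (fun a ha => by rw [hzz a ha])]
  have h1 := block_markov_signed f d hd B hB y zz T A hA
    (T.filter fun a => 0 ≤ f ((A a).piecewise zz y) - f y) (Finset.filter_subset _ _)
  have h2 := block_markov_signed f d hd B hB y zz T A hA
    (T.filter fun a => ¬ 0 ≤ f ((A a).piecewise zz y) - f y) (Finset.filter_subset _ _)
  rw [← Finset.sum_filter_add_sum_filter_not T (fun a => 0 ≤ f ((A a).piecewise zz y) - f y)]
  have e1 : ∑ a ∈ T.filter (fun a => 0 ≤ f ((A a).piecewise zz y) - f y),
      |f ((A a).piecewise zz y) - f y| =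
      ∑ a ∈ T.filter (fun a => 0 ≤ f ((A a).piecewise zz y) - f y),
        (f ((A a).piecewise zz y) - f y) :=
    Finset.sum_congr rfl fun a ha => abs_of_nonneg (Finset.mem_filter.1 ha).2
  have e2 : ∑ a ∈ T.filter (fun a => ¬ 0 ≤ f ((A a).piecewise zz y) - f y),
      |f ((A a).piecewise zz y) - f y| =
      - ∑ a ∈ T.filter (fun a => ¬ 0 ≤ f ((A a).piecewise zz y) - f y),
        (f ((A a).piecewise zz y) - f y) := by
    rw [← Finset.sum_neg_distrib]
    exact Finset.sum_congr rfl fun a ha => abs_of_neg (not_le.1 (Finset.mem_filter.1 ha).2)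
  rw [e1, e2]
  have h3 := (le_abs_self _).trans h1
  have h4 := (neg_le_abs _).trans h2
  linarith

end Block

section Greedy

variable {ι : Type*} [DecidableEq ι] {κ : Type*} [DecidableEq κ]

lemma sum_biUnion_le' (R : Finset ι) (O : ι → Finset κ) (w : κ → ℝ) (hw : ∀ a, 0 ≤ w a) :
    ∑ a ∈ R.biUnion O, w a ≤ ∑ l ∈ R, ∑ a ∈ O l, w a := by
  induction R using Finset.induction_on with
  | empty => simp
  | insert a R ha ih =>
    rw [Finset.biUnion_insert, Finset.sum_insert ha]
    have h1 : ∑ e ∈ O a ∪ R.biUnion O, w e ≤ ∑ e ∈ O a, w e + ∑ e ∈ R.biUnion O, w e := by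
      rw [← Finset.sum_union_inter]
      have : 0 ≤ ∑ e ∈ O a ∩ R.biUnion O, w e := Finset.sum_nonneg fun e _ => hw e
      linarith
    linarith

/-- Greedy choice of disjoint blocks: if every point is covered with weight at most `θ`, then
some disjoint subfamily captures a `1/(kθ)` fraction. -/
lemma greedy (k : ℕ) (θ : ℝ) (hθ : 0 ≤ θ) (A : κ → Finset ι) (w δ : κ → ℝ)
    (hw : ∀ a, 0 ≤ w a) (hδ : ∀ a, 0 ≤ δ a) : ∀ (n : ℕ) (T : Finset κ), T.card = n →
    (∀ a ∈ T, (A a).card ≤ k) → (∀ a ∈ T, A a = ∅ → δ a = 0) →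
    (∀ a ∈ T, ∀ l ∈ A a, ∑ b ∈ T.filter (fun b => l ∈ A b), w b ≤ θ) →
    ∃ I ⊆ T, (∀ a ∈ I, ∀ b ∈ I, a ≠ b → Disjoint (A a) (A b)) ∧
      ∑ a ∈ T, w a * δ a ≤ k * θ * ∑ a ∈ I, δ a := by
  intro n
  induction n using Nat.strong_induction_on with
  | _ n ih =>
    intro T hTn hk h0 hl
    by_cases hz : ∀ a ∈ T, δ a = 0
    · refine ⟨∅, Finset.empty_subset _, by simp, ?_⟩
      rw [Finset.sum_eq_zero fun a ha => by rw [hz a ha, mul_zero]]
      simp
    · push Not at hz
      obtain ⟨a₀, ha₀, hd₀⟩ := hz
      obtain ⟨a, ha, hmax⟩ := Finset.exists_max_image T δ ⟨a₀, ha₀⟩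
      have hda : δ a ≠ 0 := by
        intro h
        have := hmax a₀ ha₀
        rw [h] at this
        exact hd₀ (le_antisymm this (hδ _))
      have hAa : A a ≠ ∅ := fun h => hda (h0 a ha h)
      let N := T.filter fun b => ¬ Disjoint (A a) (A b)
      let T' := T.filter fun b => Disjoint (A a) (A b)
      have haN : a ∈ N := by
        refine Finset.mem_filter.2 ⟨ha, ?_⟩
        rw [disjoint_self]
        exact hAa
      have hT'card : T'.card < n := by
        rw [← hTn]
        refine Finset.card_lt_card ⟨Finset.filter_subset _ _, ?_⟩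
        intro hsub
        have := (Finset.mem_filter.1 (hsub ha)).2
        rw [disjoint_self] at this
        exact hAa this
      obtain ⟨I, hIT, hdis, hsum⟩ := ih T'.card hT'card T' rfl
        (fun b hb => hk b (Finset.mem_filter.1 hb).1)
        (fun b hb => h0 b (Finset.mem_filter.1 hb).1)
        (by
          intro b hb l hlb
          refine le_trans ?_ (hl b (Finset.mem_filter.1 hb).1 l hlb)
          refine Finset.sum_le_sum_of_subset_of_nonneg ?_ (fun _ _ _ => hw _)
          exact Finset.filter_subset_filter _ (Finset.filter_subset _ _))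
      have haI : a ∉ I := by
        intro h
        have := (Finset.mem_filter.1 (hIT h)).2
        rw [disjoint_self] at this
        exact hAa this
      refine ⟨insert a I, ?_, ?_, ?_⟩
      · intro b hb
        rcases Finset.mem_insert.1 hb with rfl | hb
        · exact ha
        · exact (Finset.mem_filter.1 (hIT hb)).1
      · intro b hb c hc hbc
        rcases Finset.mem_insert.1 hb with hb' | hb'
        · rcases Finset.mem_insert.1 hc with hc' | hc'
          · exact absurd (hb'.trans hc'.symm) hbc
          · rw [hb']; exact (Finset.mem_filter.1 (hIT hc')).2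
        · rcases Finset.mem_insert.1 hc with hc' | hc'
          · rw [hc']; exact (Finset.mem_filter.1 (hIT hb')).2.symm
          · exact hdis b hb' c hc' hbc
      · have hsplit : ∑ b ∈ T, w b * δ b = ∑ b ∈ T', w b * δ b + ∑ b ∈ N, w b * δ b :=
          (Finset.sum_filter_add_sum_filter_not T _ _).symm
        have hN : ∑ b ∈ N, w b * δ b ≤ k * θ * δ a := by
          have h1 : ∑ b ∈ N, w b * δ b ≤ (∑ b ∈ N, w b) * δ a := by
            rw [Finset.sum_mul]
            refine Finset.sum_le_sum fun b hb => ?_
            exact mul_le_mul_of_nonneg_left (hmax b (Finset.mem_filter.1 hb).1) (hw b)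
          have h2 : ∑ b ∈ N, w b ≤ k * θ := by
            have h3 : ∑ b ∈ N, w b ≤ ∑ l ∈ A a, ∑ b ∈ T.filter (fun b => l ∈ A b), w b := by
              have h4 : N ⊆ (A a).biUnion fun l => T.filter (fun b => l ∈ A b) := by
                intro b hb
                obtain ⟨hbT, hbd⟩ := Finset.mem_filter.1 hb
                rw [Finset.not_disjoint_iff] at hbd
                obtain ⟨l, hla, hlb⟩ := hbd
                exact Finset.mem_biUnion.2 ⟨l, hla, Finset.mem_filter.2 ⟨hbT, hlb⟩⟩
              refine (Finset.sum_le_sum_of_subset_of_nonneg h4 fun _ _ _ => hw _).trans ?_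
              exact sum_biUnion_le' _ _ _ hw
            refine h3.trans ?_
            refine (Finset.sum_le_sum fun l hl' => hl a ha l hl').trans ?_
            rw [Finset.sum_const, nsmul_eq_mul]
            refine mul_le_mul_of_nonneg_right ?_ hθ
            exact_mod_cast hk a ha
          exact h1.trans (mul_le_mul_of_nonneg_right h2 (hδ a))
        rw [hsplit, Finset.sum_insert haI]
        have : (k : ℝ) * θ * (δ a + ∑ b ∈ I, δ b) = k * θ * ∑ b ∈ I, δ b + k * θ * δ a := by ring
        rw [this]
        exact add_le_add hsum hN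

end Greedy

end Pool.Agent.H746R2.AA
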