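import Pool.Agent.H746R2.AA.Block

/-!
# Expectations, Fourier coefficients and averaging on the cube
-/

set_option autoImplicit false
set_option linter.unusedSectionVars false

namespace Pool.Agent.H746R2.AA

open Finset Polynomial Pool.Agent.H722R2.AA

variable {ι : Type*} [Fintype ι] [DecidableEq ι]

/-- Expectation on the cube. -/
noncomputable def Ex (g : (ι → ℤˣ) → ℝ) : ℝ := (∑ x, g x) / (2 : ℝ) ^ Fintype.card ι

lemma pow_pos' : (0 : ℝ) < (2 : ℝ) ^ Fintype.card ι := by positivity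

lemma card_cube : ((Finset.univ : Finset (ι → ℤˣ)).card : ℝ) = (2 : ℝ) ^ Fintype.card ι := by
  rw [Finset.card_univ, Fintype.card_fun]
  simp

lemma Ex_add (g h : (ι → ℤˣ) → ℝ) : Ex (fun x => g x + h x) = Ex g + Ex h := by
  unfold Ex; rw [Finset.sum_add_distrib, add_div]

lemma Ex_sub (g h : (ι → ℤˣ) → ℝ) : Ex (fun x => g x - h x) = Ex g - Ex h := by
  unfold Ex; rw [Finset.sum_sub_distrib, sub_div]

lemma Ex_mul_left (c : ℝ) (g : (ι → ℤˣ) → ℝ) : Ex (fun x => c * g x) = c * Ex g := by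
  unfold Ex; rw [← Finset.mul_sum, mul_div_assoc]

lemma Ex_mul_right (c : ℝ) (g : (ι → ℤˣ) → ℝ) : Ex (fun x => g x * c) = Ex g * c := by
  unfold Ex; rw [← Finset.sum_mul, div_mul_eq_mul_div]

lemma Ex_sum {κ : Type*} (T : Finset κ) (g : κ → (ι → ℤˣ) → ℝ) :
    Ex (fun x => ∑ a ∈ T, g a x) = ∑ a ∈ T, Ex (g a) := by
  unfold Ex; rw [Finset.sum_comm, Finset.sum_div]

lemma Ex_mono {g h : (ι → ℤˣ) → ℝ} (H : ∀ x, g x ≤ h x) : Ex g ≤ Ex h := by
  unfold Ex
  exact div_le_div_of_nonneg_right (Finset.sum_le_sum fun x _ => H x) pow_pos'.le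

lemma Ex_const (c : ℝ) : Ex (fun _ : ι → ℤˣ => c) = c := by
  unfold Ex
  rw [Finset.sum_const, nsmul_eq_mul, card_cube]
  field_simp

lemma Ex_nonneg {g : (ι → ℤˣ) → ℝ} (H : ∀ x, 0 ≤ g x) : 0 ≤ Ex g := by
  unfold Ex
  exact div_nonneg (Finset.sum_nonneg fun x _ => H x) pow_pos'.le

lemma abs_Ex_le (g : (ι → ℤˣ) → ℝ) : |Ex g| ≤ Ex (fun x => |g x|) := by
  unfold Ex
  rw [abs_div, abs_of_pos (pow_pos' (ι := ι))]
  exact div_le_div_of_nonneg_right (Finset.abs_sum_le_sum_abs _ _) pow_pos'.le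

lemma Ex_congr {g h : (ι → ℤˣ) → ℝ} (H : ∀ x, g x = h x) : Ex g = Ex h := by
  have : g = h := funext H
  rw [this]

lemma Ex_le_const {g : (ι → ℤˣ) → ℝ} {c : ℝ} (H : ∀ x, g x ≤ c) : Ex g ≤ c :=
  (Ex_mono H).trans_eq (Ex_const c)

/-- Cauchy-Schwarz. -/
lemma Ex_mul_sq_le (g h : (ι → ℤˣ) → ℝ) :
    Ex (fun x => g x * h x) ^ 2 ≤ Ex (fun x => g x ^ 2) * Ex (fun x => h x ^ 2) := by
  unfold Ex
  rw [div_pow, div_mul_div_comm, ← sq]
  exact div_le_div_of_nonneg_right (Finset.sum_mul_sq_le_sq_mul_sq _ _ _) (by positivity)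

lemma abs_Ex_mul_le (g h : (ι → ℤˣ) → ℝ) :
    |Ex (fun x => g x * h x)| ≤ Real.sqrt (Ex (fun x => g x ^ 2)) * Real.sqrt (Ex (fun x => h x ^ 2)) := by
  rw [← Real.sqrt_mul (Ex_nonneg fun x => sq_nonneg _)]
  exact Real.abs_le_sqrt (Ex_mul_sq_le g h)

/-- Fubini for overlays. -/
lemma Ex_overlay (C : Finset ι) (g : (ι → ℤˣ) → ℝ) :
    Ex g = Ex (fun z => Ex (fun y => g (C.piecewise z y))) := by
  have hN : (2 : ℝ) ^ Fintype.card ι ≠ 0 := pow_pos'.ne'
  unfold Ex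
  rw [← Finset.sum_div, div_div, div_eq_div_iff hN (mul_ne_zero hN hN)]
  have key : ∑ z : ι → ℤˣ, ∑ y : ι → ℤˣ, g (C.piecewise z y)
      = ∑ z : ι → ℤˣ, ∑ _y : ι → ℤˣ, g z := by
    rw [← Fintype.sum_prod_type', ← Fintype.sum_prod_type']
    refine Finset.sum_nbij' (fun p => (C.piecewise p.1 p.2, C.piecewise p.2 p.1))
      (fun p => (C.piecewise p.1 p.2, C.piecewise p.2 p.1)) (by simp) (by simp) ?_ ?_ ?_
    · rintro ⟨z, y⟩ _
      ext i <;> by_cases hi : i ∈ C <;> simp [Finset.piecewise, hi]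
    · rintro ⟨z, y⟩ _
      ext i <;> by_cases hi : i ∈ C <;> simp [Finset.piecewise, hi]
    · rintro ⟨z, y⟩ _; rfl
  rw [key]
  have h2 : ∑ z : ι → ℤˣ, ∑ _y : ι → ℤˣ, g z = (∑ z, g z) * 2 ^ Fintype.card ι := by
    rw [Finset.sum_mul]
    refine Finset.sum_congr rfl fun z _ => ?_
    rw [Finset.sum_const, nsmul_eq_mul, card_cube, mul_comm]
  rw [h2]; ring

lemma Ex_comm (g : (ι → ℤˣ) → (ι → ℤˣ) → ℝ) :
    Ex (fun z => Ex (fun y => g z y)) = Ex (fun y => Ex (fun z => g z y)) := by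
  unfold Ex
  simp_rw [← Finset.sum_div]
  rw [Finset.sum_comm]

/-- Characters. -/
lemma fc_eq_Ex (f : (ι → ℤˣ) → ℝ) (S : Finset ι) : fc f S = Ex (fun x => f x * ∏ i ∈ S, sg x i) := rfl

lemma Ex_chi_mul (S T : Finset ι) :
    Ex (fun x => (∏ i ∈ S, sg x i) * ∏ i ∈ T, sg x i) = if S = T then 1 else 0 := by
  unfold Ex
  simp_rw [prod_sg_mul]
  rw [sum_prod_sg]
  by_cases h : S = T
  · subst h; simp
  · rw [if_neg h, if_neg, zero_div]
    intro h'
    exact h (symmDiff_eq_bot.1 h')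

lemma fc_ml (c : Finset ι → ℝ) (T : Finset ι) : fc (fun x => ml c (sg x)) T = c T := by
  rw [fc_eq_Ex]
  unfold ml
  have h1 : ∀ x : ι → ℤˣ, (∑ S : Finset ι, c S * ∏ e ∈ S, sg x e) * ∏ i ∈ T, sg x i
      = ∑ S : Finset ι, c S * ((∏ e ∈ S, sg x e) * ∏ i ∈ T, sg x i) := by
    intro x
    rw [Finset.sum_mul]
    exact Finset.sum_congr rfl fun S _ => by ring
  rw [Ex_congr h1, Ex_sum]
  simp_rw [Ex_mul_left, Ex_chi_mul]
  simp

/-- Parseval. -/
lemma parseval (f g : (ι → ℤˣ) → ℝ) : Ex (fun x => f x * g x) = ∑ S : Finset ι, fc f S * fc g S := by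
  have h1 : ∀ x : ι → ℤˣ, f x * g x = ∑ S : Finset ι, fc g S * (f x * ∏ e ∈ S, sg x e) := by
    intro x
    conv_lhs => rw [← ml_fc g x]
    unfold ml
    rw [Finset.mul_sum]
    exact Finset.sum_congr rfl fun S _ => by ring
  rw [Ex_congr h1, Ex_sum]
  simp_rw [Ex_mul_left]
  exact Finset.sum_congr rfl fun S _ => by rw [fc_eq_Ex f]; ring

lemma parseval_sq (f : (ι → ℤˣ) → ℝ) : Ex (fun x => f x ^ 2) = ∑ S : Finset ι, fc f S ^ 2 := by
  have := parseval f f
  simp_rw [← sq] at this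
  exact this

lemma fc_empty (f : (ι → ℤˣ) → ℝ) : fc f ∅ = Ex f := by
  rw [fc_eq_Ex]; simp

/-- Covariance. -/
noncomputable def Cov (f g : (ι → ℤˣ) → ℝ) : ℝ := Ex (fun x => f x * g x) - Ex f * Ex g

lemma Cov_eq (f g : (ι → ℤˣ) → ℝ) :
    Cov f g = ∑ S ∈ (Finset.univ : Finset (Finset ι)).erase ∅, fc f S * fc g S := by
  unfold Cov
  rw [parseval, ← fc_empty f, ← fc_empty g,
    ← Finset.add_sum_erase Finset.univ (fun S : Finset ι => fc f S * fc g S) (Finset.mem_univ ∅)]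
  ring

lemma Cov_self_nonneg (f : (ι → ℤˣ) → ℝ) : 0 ≤ Cov f f := by
  rw [Cov_eq]
  exact Finset.sum_nonneg fun S _ => mul_self_nonneg _

/-- The derivative -/
noncomputable def D (f : (ι → ℤˣ) → ℝ) (l : ι) (x : ι → ℤˣ) : ℝ :=
  (f (Function.update x l 1) - f (Function.update x l (-1))) / 2

lemma D_eq (f : (ι → ℤˣ) → ℝ) (l : ι) (x : ι → ℤˣ) : D f l x = dl (fc f) l (sg x) := by
  rw [dl_fc]; rfl

/-- The influence -/
noncomputable def Inf (f : (ι → ℤˣ) → ℝ) (l : ι) : ℝ := Ex (fun x => D f l x ^ 2)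

lemma Inf_nonneg (f : (ι → ℤˣ) → ℝ) (l : ι) : 0 ≤ Inf f l := Ex_nonneg fun _ => sq_nonneg _

lemma Inf_eq (f : (ι → ℤˣ) → ℝ) (l : ι) :
    Inf f l = ∑ S : Finset ι, if l ∈ S then fc f S ^ 2 else 0 := by
  have hN : (2 : ℝ) ^ Fintype.card ι ≠ 0 := pow_pos'.ne'
  unfold Inf Ex
  simp_rw [D_eq]
  rw [sum_dl_sq, mul_div_cancel_left₀ _ hN]

/-- Pairing with a function that does not depend on the coordinate `l`. -/
lemma Ex_sg_mul (l : ι) (q h : (ι → ℤˣ) → ℝ) (hq : ∀ x u, q (Function.update x l u) = q x) :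
    Ex (fun x => sg x l * q x * h x) = Ex (fun x => q x * D h l x) := by
  have hflip : ∀ g : (ι → ℤˣ) → ℝ, Ex g = Ex (fun x => g (Function.update x l (-(x l)))) := by
    intro g
    unfold Ex
    congr 1
    refine (Finset.sum_nbij' (fun x => Function.update x l (-(x l)))
      (fun x => Function.update x l (-(x l))) (by simp) (by simp) ?_ ?_ ?_).symm
    · intro x _; simp
    · intro x _; simp
    · intro x _; rfl
  have h1 : Ex (fun x => sg x l * q x * h x)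
      = Ex (fun x => (1 / 2 : ℝ) * (sg x l * q x * h x
        + (sg (Function.update x l (-(x l))) l * q (Function.update x l (-(x l)))
          * h (Function.update x l (-(x l)))))) := by
    rw [Ex_mul_left, Ex_add, ← hflip (fun x => sg x l * q x * h x)]
    ring
  rw [h1]
  refine Ex_congr fun x => ?_
  rw [hq, sg_update, Function.update_self]
  unfold D sg
  rcases Int.units_eq_one_or (x l) with h2 | h2
  · have h3 : Function.update x l 1 = x := by rw [← h2, Function.update_eq_self]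
    rw [h3, h2]; push_cast; ring
  · have h3 : Function.update x l (-1) = x := by rw [← h2, Function.update_eq_self]
    rw [h3, h2]; push_cast
    rw [neg_neg]; ring

/-- Influences control the loss of covariance. -/
lemma abs_Ex_sg_mul_le (l : ι) (q h : (ι → ℤˣ) → ℝ) (hq : ∀ x u, q (Function.update x l u) = q x) :
    |Ex (fun x => sg x l * q x * h x)| ≤ Real.sqrt (Ex (fun x => q x ^ 2)) * Real.sqrt (Inf h l) := by
  rw [Ex_sg_mul l q h hq]
  exact abs_Ex_mul_le _ _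

/-! ### Averaging over a set of coordinates -/

/-- Average over the coordinates in `L`. -/
noncomputable def proj (L : Finset ι) (f : (ι → ℤˣ) → ℝ) (x : ι → ℤˣ) : ℝ :=
  ml (fc f) (fun i => if i ∈ L then 0 else sg x i)

lemma proj_eq (L : Finset ι) (f : (ι → ℤˣ) → ℝ) (x : ι → ℤˣ) :
    proj L f x = ml (fun S => if Disjoint S L then fc f S else 0) (sg x) := by
  unfold proj ml
  refine Finset.sum_congr rfl fun S _ => ?_
  beta_reduce
  by_cases h : Disjoint S L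
  · rw [if_pos h]
    congr 1
    refine Finset.prod_congr rfl fun i hi => ?_
    rw [if_neg (Finset.disjoint_left.1 h hi)]
  · rw [if_neg h, zero_mul]
    rw [Finset.not_disjoint_iff] at h
    obtain ⟨i, hi, hiL⟩ := h
    have h0 : ∏ e ∈ S, (if e ∈ L then (0 : ℝ) else sg x e) = 0 :=
      Finset.prod_eq_zero hi (by simp [hiL])
    rw [h0, mul_zero]

lemma fc_proj (L : Finset ι) (f : (ι → ℤˣ) → ℝ) (S : Finset ι) :
    fc (proj L f) S = if Disjoint S L then fc f S else 0 := by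
  have : proj L f = fun x => ml (fun S => if Disjoint S L then fc f S else 0) (sg x) :=
    funext fun x => proj_eq L f x
  rw [this, fc_ml]

lemma abs_proj_le (L : Finset ι) (f : (ι → ℤˣ) → ℝ) (B : ℝ) (hB : ∀ x, |f x| ≤ B) (x : ι → ℤˣ) :
    |proj L f x| ≤ B := by
  refine abs_ml_le (fc f) B ?_ _ ?_
  · intro y hy
    obtain ⟨u, rfl⟩ := exists_sg y hy
    rw [ml_fc]; exact hB _
  · intro e
    by_cases h : e ∈ L
    · simp [h]
    · simp only [h, if_false]
      rcases sg_cases x e with h | h <;> rw [h] <;> norm_num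

lemma proj_congr (L : Finset ι) (f : (ι → ℤˣ) → ℝ) (x y : ι → ℤˣ) (h : ∀ i ∉ L, x i = y i) :
    proj L f x = proj L f y := by
  unfold proj
  congr 1
  funext i
  by_cases hi : i ∈ L
  · simp [hi]
  · simp only [hi, if_false, sg]
    rw [h i hi]

lemma fc_proj_deg (L : Finset ι) (f : (ι → ℤˣ) → ℝ) (d : ℕ)
    (hd : ∀ S : Finset ι, d < S.card → fc f S = 0) (S : Finset ι) (hS : d < S.card) :
    fc (proj L f) S = 0 := by
  rw [fc_proj, hd S hS]; simp

lemma Inf_proj_le (L : Finset ι) (f : (ι → ℤˣ) → ℝ) (l : ι) : Inf (proj L f) l ≤ Inf f l := by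
  rw [Inf_eq, Inf_eq]
  refine Finset.sum_le_sum fun S _ => ?_
  split_ifs with h
  · rw [fc_proj]
    split_ifs
    · exact le_rfl
    · simp [sq_nonneg]
  · exact le_rfl

/-- `f - proj L f` is orthogonal to `proj L f`. -/
lemma Cov_proj (L : Finset ι) (f : (ι → ℤˣ) → ℝ) : Cov f (proj L f) = Cov (proj L f) (proj L f) := by
  rw [Cov_eq, Cov_eq]
  refine Finset.sum_congr rfl fun S _ => ?_
  rw [fc_proj]
  split_ifs
  · rfl
  · simp

lemma var_le_proj (L : Finset ι) (f : (ι → ℤˣ) → ℝ) :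
    Cov f f ≤ Cov (proj L f) (proj L f) + ∑ l ∈ L, Inf f l := by
  have h1 : ∑ l ∈ L, Inf f l = ∑ S : Finset ι, ((S ∩ L).card : ℝ) * fc f S ^ 2 := by
    simp_rw [Inf_eq]
    rw [Finset.sum_comm]
    refine Finset.sum_congr rfl fun S _ => ?_
    rw [Finset.sum_ite_mem, Finset.sum_const, nsmul_eq_mul, Finset.inter_comm]
  rw [h1, Cov_eq, Cov_eq,
    ← Finset.add_sum_erase Finset.univ (fun S : Finset ι => ((S ∩ L).card : ℝ) * fc f S ^ 2)
      (Finset.mem_univ ∅)]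
  simp only [Finset.empty_inter, Finset.card_empty, Nat.cast_zero, zero_mul, zero_add]
  rw [← Finset.sum_add_distrib]
  refine Finset.sum_le_sum fun S _ => ?_
  rw [fc_proj]
  by_cases h : Disjoint S L
  · rw [if_pos h, ← sq]
    have : 0 ≤ ((S ∩ L).card : ℝ) * fc f S ^ 2 := by positivity
    linarith
  · rw [if_neg h, ← sq]
    have h2 : 1 ≤ (S ∩ L).card := by
      rw [Finset.one_le_card]
      rw [Finset.not_disjoint_iff] at h
      obtain ⟨i, hi, hiL⟩ := h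
      exact ⟨i, Finset.mem_inter.2 ⟨hi, hiL⟩⟩
    have h3 : (1 : ℝ) ≤ ((S ∩ L).card : ℝ) := by exact_mod_cast h2
    nlinarith [sq_nonneg (fc f S)]

end Pool.Agent.H746R2.AA
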