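import Pool.Agent.H746R2.AA.Fix

/-!
# Degree calculus and nonnegative decompositions
-/

set_option autoImplicit false
set_option linter.unusedSectionVars false

namespace Pool.Agent.H746R2.AA

open Finset Polynomial Pool.Agent.H722R2.AA

variable {ι : Type*} [Fintype ι] [DecidableEq ι]

/-- Fourier degree at most `r`. -/
def Deg (r : ℕ) (g : (ι → ℤˣ) → ℝ) : Prop := ∀ S : Finset ι, r < S.card → fc g S = 0

lemma Deg.mono {r r' : ℕ} (h : r ≤ r') {g : (ι → ℤˣ) → ℝ} (hg : Deg r g) : Deg r' g :=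
  fun S hS => hg S (lt_of_le_of_lt h hS)

lemma fc_sum {κ : Type*} (T : Finset κ) (g : κ → (ι → ℤˣ) → ℝ) (S : Finset ι) :
    fc (fun x => ∑ k ∈ T, g k x) S = ∑ k ∈ T, fc (g k) S := by
  simp only [fc_eq_Ex, Finset.sum_mul]
  rw [Ex_sum]

lemma fc_mul_left (c : ℝ) (g : (ι → ℤˣ) → ℝ) (S : Finset ι) :
    fc (fun x => c * g x) S = c * fc g S := by
  simp only [fc_eq_Ex, mul_assoc]
  rw [Ex_mul_left]

lemma fc_add' (f g : (ι → ℤˣ) → ℝ) (S : Finset ι) :
    fc (fun x => f x + g x) S = fc f S + fc g S := by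
  simp only [fc_eq_Ex, add_mul]
  rw [Ex_add]

lemma fc_sub' (f g : (ι → ℤˣ) → ℝ) (S : Finset ι) :
    fc (fun x => f x - g x) S = fc f S - fc g S := by
  simp only [fc_eq_Ex, sub_mul]
  rw [Ex_sub]

lemma Deg.sum {κ : Type*} {r : ℕ} (T : Finset κ) (g : κ → (ι → ℤˣ) → ℝ)
    (hg : ∀ k ∈ T, Deg r (g k)) : Deg r (fun x => ∑ k ∈ T, g k x) := by
  intro S hS
  rw [fc_sum]
  exact Finset.sum_eq_zero fun k hk => hg k hk S hS

lemma Deg.mul_left {r : ℕ} (c : ℝ) {g : (ι → ℤˣ) → ℝ} (hg : Deg r g) :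
    Deg r (fun x => c * g x) := by
  intro S hS
  rw [fc_mul_left, hg S hS, mul_zero]

lemma Deg.add {r : ℕ} {f g : (ι → ℤˣ) → ℝ} (hf : Deg r f) (hg : Deg r g) :
    Deg r (fun x => f x + g x) := by
  intro S hS
  rw [fc_add', hf S hS, hg S hS, add_zero]

lemma Deg.sub {r : ℕ} {f g : (ι → ℤˣ) → ℝ} (hf : Deg r f) (hg : Deg r g) :
    Deg r (fun x => f x - g x) := by
  intro S hS
  rw [fc_sub', hf S hS, hg S hS, sub_zero]

lemma fc_chi_mul (T : Finset ι) (g : (ι → ℤˣ) → ℝ) (S : Finset ι) :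
    fc (fun x => (∏ i ∈ T, sg x i) * g x) S = fc g (symmDiff T S) := by
  simp only [fc_eq_Ex]
  refine Ex_congr fun x => ?_
  rw [← prod_sg_mul]
  ring

lemma card_symmDiff_ge (T S : Finset ι) : S.card ≤ T.card + (symmDiff T S).card := by
  have h : S ⊆ T ∪ symmDiff T S := by
    intro i hi
    by_cases hT : i ∈ T
    · exact Finset.mem_union_left _ hT
    · exact Finset.mem_union_right _ (Finset.mem_symmDiff.2 (Or.inr ⟨hi, hT⟩))
  exact (Finset.card_le_card h).trans (Finset.card_union_le _ _)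

lemma Deg.mul {a b : ℕ} {f g : (ι → ℤˣ) → ℝ} (hf : Deg a f) (hg : Deg b g) :
    Deg (a + b) (fun x => f x * g x) := by
  intro S hS
  have e : (fun x => f x * g x)
      = fun x => ∑ T : Finset ι, fc f T * ((∏ i ∈ T, sg x i) * g x) := by
    funext x
    rw [← ml_fc f x]
    unfold ml
    rw [Finset.sum_mul]
    refine Finset.sum_congr rfl fun T _ => ?_
    rw [mul_assoc]
  rw [e, fc_sum]
  refine Finset.sum_eq_zero fun T _ => ?_
  rw [fc_mul_left, fc_chi_mul]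
  rcases lt_or_ge a T.card with h | h
  · rw [hf T h, zero_mul]
  · rw [hg _ (by have := card_symmDiff_ge T S; omega), mul_zero]

lemma Deg.sg_mul {r : ℕ} (i : ι) {g : (ι → ℤˣ) → ℝ} (hg : Deg r g) :
    Deg (r + 1) (fun x => sg x i * g x) := by
  intro S hS
  have e : (fun x : ι → ℤˣ => sg x i * g x) = fun x => (∏ j ∈ ({i} : Finset ι), sg x j) * g x := by
    funext x; rw [Finset.prod_singleton]
  rw [e, fc_chi_mul]
  refine hg _ ?_
  have := card_symmDiff_ge {i} S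
  rw [Finset.card_singleton] at this
  omega

lemma Deg.junta {C : Finset ι} {J : (ι → ℤˣ) → ℝ} (hJ : ∀ x y, (∀ i ∈ C, x i = y i) → J x = J y) :
    Deg C.card J := by
  intro S hS
  obtain ⟨a, haS, haC⟩ : ∃ a ∈ S, a ∉ C := by
    by_contra h
    push Not at h
    exact absurd (Finset.card_le_card (fun i hi => h i hi)) (not_le.2 hS)
  refine fc_eq_zero_of_indep J S a haS ?_
  intro x u
  refine hJ _ _ fun i hi => ?_
  have : i ≠ a := fun h => haC (h ▸ hi)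
  rw [Function.update_of_ne this]

/-- `g` is a finite sum of products `J * Q`, `J ≥ 0` depending on at most `k` coordinates,
`Q ≥ 0` of degree at most `r`. -/
def Dec (k r : ℕ) (g : (ι → ℤˣ) → ℝ) : Prop :=
  ∃ (τ : Type) (_ : Fintype τ) (C : τ → Finset ι) (J Q : τ → (ι → ℤˣ) → ℝ),
    (∀ a, (C a).card ≤ k) ∧ (∀ a x y, (∀ i ∈ C a, x i = y i) → J a x = J a y) ∧
    (∀ a, Deg r (Q a)) ∧ (∀ a x, 0 ≤ J a x) ∧ (∀ a x, 0 ≤ Q a x) ∧
    (∀ x, g x = ∑ a, J a x * Q a x)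

lemma Dec.mono {k k' r r' : ℕ} {g : (ι → ℤˣ) → ℝ} (hg : Dec k r g) (hk : k ≤ k') (hr : r ≤ r') :
    Dec k' r' g := by
  obtain ⟨τ, hτ, C, J, Q, h1, h2, h3, h4, h5, h6⟩ := hg
  exact ⟨τ, hτ, C, J, Q, fun a => (h1 a).trans hk, h2, fun a => (h3 a).mono hr, h4, h5, h6⟩

lemma Dec.zero (k r : ℕ) : Dec k r (fun _ : ι → ℤˣ => 0) :=
  ⟨Empty, inferInstance, Empty.elim, fun a => a.elim, fun a => a.elim, fun a => a.elim,
    fun a => a.elim, fun a => a.elim, fun a => a.elim, fun a => a.elim, fun x => by simp⟩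

lemma Dec.of_deg {k r : ℕ} {Q : (ι → ℤˣ) → ℝ} (hQ : Deg r Q) (h0 : ∀ x, 0 ≤ Q x) : Dec k r Q :=
  ⟨Unit, inferInstance, fun _ => ∅, fun _ _ => 1, fun _ => Q, fun _ => by simp,
    fun _ _ _ _ => rfl, fun _ => hQ, fun _ _ => zero_le_one, fun _ => h0, fun x => by simp⟩

lemma Dec.sum {β : Type} [Fintype β] {k r : ℕ} (g : β → (ι → ℤˣ) → ℝ) (hg : ∀ j, Dec k r (g j)) :
    Dec k r (fun x => ∑ j, g j x) := by
  choose τ hτ C J Q h1 h2 h3 h4 h5 h6 using hg
  refine ⟨Σ j, τ j, inferInstance, fun a => C a.1 a.2, fun a => J a.1 a.2, fun a => Q a.1 a.2,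
    fun a => h1 a.1 a.2, fun a => h2 a.1 a.2, fun a => h3 a.1 a.2, fun a => h4 a.1 a.2,
    fun a => h5 a.1 a.2, fun x => ?_⟩
  rw [Fintype.sum_sigma]
  exact Finset.sum_congr rfl fun j _ => h6 j x

lemma Dec.restrict {k r : ℕ} {g : (ι → ℤˣ) → ℝ} (hg : Dec k r g) (i : ι) (w : ℤˣ → ℝ)
    (hw : ∀ u, 0 ≤ w u) :
    Dec (k + 1) r (fun x => w (x i) * g x) := by
  obtain ⟨τ, hτ, C, J, Q, h1, h2, h3, h4, h5, h6⟩ := hg
  refine ⟨τ, hτ, fun a => insert i (C a), fun a x => w (x i) * J a x, Q,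
    fun a => (Finset.card_insert_le _ _).trans (by have := h1 a; omega), ?_, h3,
    fun a x => mul_nonneg (hw _) (h4 a x), h5, fun x => ?_⟩
  · intro a x y hxy
    change w (x i) * J a x = w (y i) * J a y
    rw [hxy i (Finset.mem_insert_self _ _),
      h2 a x y fun j hj => hxy j (Finset.mem_insert_of_mem hj)]
  · change w (x i) * g x = ∑ a, w (x i) * J a x * Q a x
    rw [h6 x, Finset.mul_sum]
    exact Finset.sum_congr rfl fun a _ => by ring

lemma Dec.deg {k r : ℕ} {g : (ι → ℤˣ) → ℝ} (hg : Dec k r g) : Deg (k + r) g := by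
  obtain ⟨τ, hτ, C, J, Q, h1, h2, h3, h4, h5, h6⟩ := hg
  have e : g = fun x => ∑ a, J a x * Q a x := funext h6
  rw [e]
  refine Deg.sum _ _ fun a _ => ?_
  exact ((Deg.junta (h2 a)).mono (h1 a)).mul (h3 a)

lemma Dec.nmix {k r : ℕ} {g : (ι → ℤˣ) → ℝ} (hg : Dec k r g) (h1 : ∀ x, g x ≤ 1) :
    NMix (k + r) k r g := by
  have hdeg := hg.deg
  obtain ⟨τ, hτ, C, J, Q, hC, hJ, hQ, hJ0, hQ0, hs⟩ := hg
  refine ⟨fun x => ?_, h1, hdeg, ?_⟩
  · rw [hs x]
    exact Finset.sum_nonneg fun a _ => mul_nonneg (hJ0 a x) (hQ0 a x)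
  · refine ⟨Fintype.card τ, fun a => C ((Fintype.equivFin τ).symm a),
      fun a => J ((Fintype.equivFin τ).symm a), fun a => Q ((Fintype.equivFin τ).symm a),
      fun a => hC _, fun a => hJ _, fun a => hQ _, fun a x => mul_nonneg (hJ0 _ _) (hQ0 _ _),
      fun x => ?_⟩
    rw [hs x]
    exact (Equiv.sum_comp (Fintype.equivFin τ).symm (fun a => J a x * Q a x)).symm

end Pool.Agent.H746R2.AA
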