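import Pool.Agent.H746R2.AA.Weak3

/-!
# From influential coordinates to bit fixing
-/

set_option autoImplicit false
set_option linter.unusedSectionVars false

namespace Pool.Agent.H746R2.AA

open Finset Polynomial Pool.Agent.H722R2.AA

variable {ι : Type*} [Fintype ι] [DecidableEq ι]

/-- Freeze a coordinate. -/
def fr (l : ι) (b : ℤˣ) (g : (ι → ℤˣ) → ℝ) : (ι → ℤˣ) → ℝ := fun x => g (Function.update x l b)

lemma fc_fr (l : ι) (b : ℤˣ) (g : (ι → ℤˣ) → ℝ) (d : ℕ)
    (hd : ∀ S : Finset ι, d < S.card → fc g S = 0) (S : Finset ι) (hS : d < S.card) :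
    fc (fr l b g) S = 0 := by
  have h := fc_overlay g d hd {l} (fun _ => b) S hS
  have e : (fun y => g (({l} : Finset ι).piecewise (fun _ => b) y)) = fr l b g := by
    funext y
    unfold fr
    rw [Finset.piecewise_singleton]
  rwa [e] at h

lemma Ex_split (l : ι) (g : (ι → ℤˣ) → ℝ) :
    Ex g = (Ex (fr l 1 g) + Ex (fr l (-1) g)) / 2 := by
  have hflip : Ex g = Ex (fun x => g (Function.update x l (-(x l)))) := by
    unfold Ex
    congr 1
    refine (Finset.sum_nbij' (fun x => Function.update x l (-(x l)))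
      (fun x => Function.update x l (-(x l))) (by simp) (by simp) ?_ ?_ ?_).symm
    · intro x _; simp
    · intro x _; simp
    · intro x _; rfl
  have h1 : Ex g + Ex g = Ex (fr l 1 g) + Ex (fr l (-1) g) := by
    nth_rw 2 [hflip]
    rw [← Ex_add, ← Ex_add]
    refine Ex_congr fun x => ?_
    unfold fr
    rcases Int.units_eq_one_or (x l) with h2 | h2
    · have h3 : Function.update x l 1 = x := by rw [← h2, Function.update_eq_self]
      rw [h3, h2]
    · have h3 : Function.update x l (-1) = x := by rw [← h2, Function.update_eq_self]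
      rw [h3, h2, neg_neg]; ring
  linarith

/-- Total influence. -/
noncomputable def TI (g : (ι → ℤˣ) → ℝ) : ℝ := ∑ l, Inf g l

lemma TI_nonneg (g : (ι → ℤˣ) → ℝ) : 0 ≤ TI g := Finset.sum_nonneg fun l _ => Inf_nonneg g l

lemma TI_le (g : (ι → ℤˣ) → ℝ) (d : ℕ) (hd : ∀ S : Finset ι, d < S.card → fc g S = 0) :
    TI g ≤ d * Cov g g := by
  unfold TI
  simp_rw [Inf_eq]
  rw [Finset.sum_comm]
  have h2 : ∀ S : Finset ι, (∑ a : ι, if a ∈ S then fc g S ^ 2 else 0) = S.card * fc g S ^ 2 := by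
    intro S
    rw [Finset.sum_ite_mem, Finset.univ_inter, Finset.sum_const, nsmul_eq_mul]
  rw [Finset.sum_congr rfl (fun S _ => h2 S), Cov_eq,
    ← Finset.add_sum_erase Finset.univ (fun S : Finset ι => (S.card : ℝ) * fc g S ^ 2)
      (Finset.mem_univ ∅)]
  simp only [Finset.card_empty, Nat.cast_zero, zero_mul, zero_add]
  rw [Finset.mul_sum]
  refine Finset.sum_le_sum fun S _ => ?_
  rcases le_or_gt S.card d with h | h
  · rw [← sq]
    exact mul_le_mul_of_nonneg_right (by exact_mod_cast h) (sq_nonneg _)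
  · rw [hd S h]; simp

lemma Inf_fr_ne (l l' : ι) (hl : l' ≠ l) (g : (ι → ℤˣ) → ℝ) :
    Inf g l' = (Inf (fr l 1 g) l' + Inf (fr l (-1) g) l') / 2 := by
  unfold Inf
  rw [Ex_split l (fun x => D g l' x ^ 2)]
  have h : ∀ b x, (fr l b (fun x => D g l' x ^ 2)) x = D (fr l b g) l' x ^ 2 := by
    intro b x
    have hc : ∀ u : ℤˣ, Function.update (Function.update x l b) l' u
        = Function.update (Function.update x l' u) l b := by
      intro u
      exact Function.update_comm hl.symm b u x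
    simp only [fr, D, hc]
  rw [Ex_congr (h 1), Ex_congr (h (-1))]

lemma Inf_fr_eq (l : ι) (b : ℤˣ) (g : (ι → ℤˣ) → ℝ) : Inf (fr l b g) l = 0 := by
  unfold Inf
  have h : ∀ x, D (fr l b g) l x ^ 2 = 0 := by
    intro x
    unfold D fr
    rw [Function.update_idem, Function.update_idem]; simp
  rw [Ex_congr h, Ex_const]

lemma TI_fr (l : ι) (g : (ι → ℤˣ) → ℝ) :
    (TI (fr l 1 g) + TI (fr l (-1) g)) / 2 = TI g - Inf g l := by
  unfold TI
  rw [← Finset.add_sum_erase Finset.univ (fun l => Inf g l) (Finset.mem_univ l),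
    ← Finset.add_sum_erase Finset.univ (fun l => Inf (fr _ 1 g) l) (Finset.mem_univ l),
    ← Finset.add_sum_erase Finset.univ (fun l => Inf (fr _ (-1) g) l) (Finset.mem_univ l),
    Inf_fr_eq, Inf_fr_eq, zero_add, zero_add, add_sub_cancel_left, ← Finset.sum_add_distrib,
    Finset.sum_div]
  refine Finset.sum_congr rfl fun l' hl' => ?_
  exact (Inf_fr_ne l l' (Finset.ne_of_mem_erase hl') g).symm

lemma Ex_sq_sub (g : (ι → ℤˣ) → ℝ) (m : ℝ) :
    Ex (fun x => (g x - m) ^ 2) = Cov g g + (Ex g - m) ^ 2 := by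
  have e2 : ∀ x, (g x - m) ^ 2 = g x * g x - (2 * m) * g x + m ^ 2 := by
    intro x; ring
  rw [Ex_congr e2, Ex_add, Ex_sub, Ex_mul_left, Ex_const]
  unfold Cov; ring

/-- If all functions of a class closed under freezing coordinates have influential coordinates,
then fixing few coordinates moves the mean. -/
lemma fix_aux (G : ((ι → ℤˣ) → ℝ) → Prop) (hfr : ∀ g l b, G g → G (fr l b g))
    (hB : ∀ g, G g → ∀ x, |g x| ≤ 1) (v ε : ℝ) (hv : 0 ≤ v) (hε : 0 < ε)
    (hinf : ∀ g, G g → v ≤ Cov g g → ∃ l, ε ≤ Inf g l) :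
    ∀ (n : ℕ) (g : (ι → ℤˣ) → ℝ), G g → ∀ m : ℝ, ∃ (S : Finset ι) (a : ι → ℤˣ), S.card ≤ n ∧
      Ex (fun x => (g x - m) ^ 2) - v - TI g / ((n + 1) * ε)
        ≤ (Ex (fun x => g (S.piecewise a x)) - m) ^ 2 := by
  intro n
  induction n with
  | zero =>
    intro g hg m
    refine ⟨∅, 1, by simp, ?_⟩
    simp only [Finset.piecewise_empty, Nat.cast_zero, zero_add, one_mul]
    rw [Ex_sq_sub, show Ex (fun x => g x) = Ex g from rfl]
    have hT := TI_nonneg g
    rcases lt_or_ge (Cov g g) v with h | h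
    · have : 0 ≤ TI g / ε := by positivity
      linarith
    · obtain ⟨l, hl⟩ := hinf g hg h
      have h1 : Inf g l ≤ TI g :=
        Finset.single_le_sum (f := fun l => Inf g l) (fun l _ => Inf_nonneg g l) (Finset.mem_univ l)
      have h2 : 1 ≤ TI g / ε := by rw [le_div_iff₀ hε]; linarith
      have h3 := Cov_self_le g 1 (hB g hg)
      linarith
  | succ n ih =>
    intro g hg m
    have hT := TI_nonneg g
    have hstop : Cov g g ≤ v + TI g / (((n + 1 : ℕ) : ℝ) + 1) / ε → ∃ (S : Finset ι) (a : ι → ℤˣ),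
        S.card ≤ n + 1 ∧ Ex (fun x => (g x - m) ^ 2) - v - TI g / ((((n + 1 : ℕ) : ℝ) + 1) * ε)
        ≤ (Ex (fun x => g (S.piecewise a x)) - m) ^ 2 := by
      intro h
      refine ⟨∅, 1, by simp, ?_⟩
      simp only [Finset.piecewise_empty]
      rw [Ex_sq_sub, show Ex (fun x => g x) = Ex g from rfl, ← div_div]
      linarith
    rcases lt_or_ge (Cov g g) v with h | h
    · refine hstop ?_
      have : 0 ≤ TI g / (((n + 1 : ℕ) : ℝ) + 1) / ε := by positivity
      linarith
    · rcases le_or_gt (TI g) ((((n + 1 : ℕ) : ℝ) + 1) * ε) with hle | hgt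
      · obtain ⟨l, hl⟩ := hinf g hg h
        obtain ⟨S1, a1, hc1, h1⟩ := ih (fr l 1 g) (hfr g l 1 hg) m
        obtain ⟨S2, a2, hc2, h2⟩ := ih (fr l (-1) g) (hfr g l (-1) hg) m
        have hsplit : Ex (fun x => (g x - m) ^ 2)
            = (Ex (fun x => (fr l 1 g x - m) ^ 2) + Ex (fun x => (fr l (-1) g x - m) ^ 2)) / 2 :=
          Ex_split l (fun x => (g x - m) ^ 2)
        have hTI := TI_fr l g
        -- the required numerical inequality
        have hn1 : (0 : ℝ) < ((n : ℝ) + 1) * ε := by positivity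
        have hn2 : (0 : ℝ) < (((n + 1 : ℕ) : ℝ) + 1) * ε := by positivity
        have hnum : (TI g - Inf g l) / (((n : ℝ) + 1) * ε)
            ≤ TI g / ((((n + 1 : ℕ) : ℝ) + 1) * ε) := by
          rw [div_le_div_iff₀ hn1 hn2]
          push_cast at hle ⊢
          have h3 : (TI g - Inf g l) * (((n : ℝ) + 1 + 1) * ε) ≤ (TI g - ε) * (((n : ℝ) + 1 + 1) * ε) := by
            refine mul_le_mul_of_nonneg_right (by linarith) (by positivity)
          nlinarith
        have key : ∀ b : ℤˣ, ∀ (S : Finset ι) (a : ι → ℤˣ), S.card ≤ n →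
            ∃ (S' : Finset ι) (a' : ι → ℤˣ), S'.card ≤ n + 1 ∧
              Ex (fun x => fr l b g (S.piecewise a x)) = Ex (fun x => g (S'.piecewise a' x)) := by
          intro b S a hc
          refine ⟨insert l S, Function.update a l b, (Finset.card_insert_le _ _).trans (by omega), ?_⟩
          refine Ex_congr fun x => ?_
          unfold fr
          congr 1
          funext i
          by_cases hi : i = l
          · subst hi
            rw [Function.update_self, Finset.piecewise_eq_of_mem _ _ _ (Finset.mem_insert_self _ _),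
              Function.update_self]
          · rw [Function.update_of_ne hi]
            by_cases hiS : i ∈ S
            · rw [Finset.piecewise_eq_of_mem _ _ _ hiS,
                Finset.piecewise_eq_of_mem _ _ _ (Finset.mem_insert_of_mem hiS),
                Function.update_of_ne hi]
            · rw [Finset.piecewise_eq_of_notMem _ _ _ hiS, Finset.piecewise_eq_of_notMem]
              simp [hi, hiS]
        obtain ⟨S1', a1', hc1', e1⟩ := key 1 S1 a1 hc1
        obtain ⟨S2', a2', hc2', e2⟩ := key (-1) S2 a2 hc2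
        rw [e1] at h1
        rw [e2] at h2
        have havg : (TI (fr l 1 g) / (((n : ℝ) + 1) * ε) + TI (fr l (-1) g) / (((n : ℝ) + 1) * ε)) / 2
            = (TI g - Inf g l) / (((n : ℝ) + 1) * ε) := by
          rw [← hTI]; ring
        by_cases hcmp : (Ex (fun x => g (S2'.piecewise a2' x)) - m) ^ 2 ≤
            (Ex (fun x => g (S1'.piecewise a1' x)) - m) ^ 2
        · refine ⟨S1', a1', hc1', ?_⟩
          linarith
        · refine ⟨S2', a2', hc2', ?_⟩
          push Not at hcmp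
          linarith
      · refine hstop ?_
        have h1 : 1 ≤ TI g / (((n + 1 : ℕ) : ℝ) + 1) / ε := by
          rw [div_div, le_div_iff₀ (by positivity)]
          linarith
        have h3 := Cov_self_le g 1 (hB g hg)
        linarith

/-- Nonnegative mixtures with values in `[0,1]`. -/
structure NMix (d k r : ℕ) (g : (ι → ℤˣ) → ℝ) : Prop where
  nonneg : ∀ x, 0 ≤ g x
  le_one : ∀ x, g x ≤ 1
  deg : ∀ S : Finset ι, d < S.card → fc g S = 0
  dec : ∃ (n : ℕ) (C : Fin n → Finset ι) (J Q : Fin n → (ι → ℤˣ) → ℝ),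
    (∀ a, (C a).card ≤ k) ∧ (∀ a x y, (∀ i ∈ C a, x i = y i) → J a x = J a y) ∧
    (∀ a, ∀ S : Finset ι, r < S.card → fc (Q a) S = 0) ∧ (∀ a x, 0 ≤ J a x * Q a x) ∧
    (∀ x, g x = ∑ a, J a x * Q a x)

lemma NMix.fr {d k r : ℕ} {g : (ι → ℤˣ) → ℝ} (hg : NMix d k r g) (l : ι) (b : ℤˣ) :
    NMix d k r (fr l b g) := by
  obtain ⟨n, C, J, Q, hC, hJ, hQ, hpos, hsum⟩ := hg.dec
  refine ⟨fun x => hg.nonneg _, fun x => hg.le_one _, fun S hS => fc_fr l b g d hg.deg S hS,
    n, C, fun a => AA.fr l b (J a), fun a => AA.fr l b (Q a), hC, ?_, ?_, ?_, ?_⟩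
  · intro a x y hxy
    refine hJ a _ _ fun i hi => ?_
    by_cases h : i = l
    · subst h; simp
    · rw [Function.update_of_ne h, Function.update_of_ne h]
      exact hxy i hi
  · intro a S hS
    exact fc_fr l b (Q a) r (hQ a) S hS
  · intro a x; exact hpos a _
  · intro x; exact hsum _

lemma NMix.inf {d k r : ℕ} {g : (ι → ℤˣ) → ℝ} (hg : NMix d k r g) (v : ℝ) (hv : 0 < v)
    (K : ℝ) (hK : K = 2 ^ 24 * 729 ^ r * ((k : ℝ) ^ 3 * (d : ℝ) ^ 2 + (d : ℝ) ^ 6)) (hK0 : 0 < K)
    (hvar : v ≤ Cov g g) : ∃ l, v ^ 5 / K ≤ Inf g l := by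
  obtain ⟨n, C, J, Q, hC, hJ, hQ, hpos, hsum⟩ := hg.dec
  by_contra hcon
  push Not at hcon
  have habs : ∀ x, |g x| ≤ 1 := fun x => by
    rw [abs_of_nonneg (hg.nonneg x)]; exact hg.le_one x
  have hmix : ∀ x, mix J Q x = g x := fun x => (hsum x).symm
  have hΛ : ∑ a, Ex (fun x => |J a x * Q a x|) ≤ 1 := by
    have e : ∀ a, Ex (fun x => |J a x * Q a x|) = Ex (fun x => J a x * Q a x) :=
      fun a => Ex_congr fun x => abs_of_nonneg (hpos a x)
    rw [Finset.sum_congr rfl fun a _ => e a, ← Ex_sum]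
    refine Ex_le_const fun x => ?_
    rw [← hsum x]; exact hg.le_one x
  obtain ⟨M2, hM0, hM1, hM2⟩ : ∃ M2, 0 ≤ M2 ∧ (∀ l, Inf g l ≤ M2) ∧ M2 < v ^ 5 / K := by
    rcases isEmpty_or_nonempty ι with hι | hι
    · exact ⟨0, le_rfl, fun l => hι.elim l, by positivity⟩
    · obtain ⟨l, _, hl⟩ := Finset.exists_max_image Finset.univ (fun l => Inf g l)
        Finset.univ_nonempty
      exact ⟨Inf g l, Inf_nonneg g l, fun l' => hl l' (Finset.mem_univ l'), hcon l⟩
  have h1 := weak_mix d g hg.deg habs k r C hC J Q hJ hQ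
    (by
      have e : ∀ x, (g x - mix J Q x) ^ 2 = 0 := fun x => by rw [hmix]; ring
      rw [Ex_congr e, Ex_const]
      have := Cov_self_nonneg g
      linarith) 1 hΛ M2 hM1 hM0
  simp only [one_pow, mul_one] at h1
  rw [← hK] at h1
  have h2 : v ^ 5 ≤ Cov g g ^ 5 := pow_le_pow_left₀ hv.le hvar 5
  rw [lt_div_iff₀ hK0] at hM2
  linarith

/-- Bit fixing for nonnegative mixtures. -/
theorem NMix.fix {d k r : ℕ} {g : (ι → ℤˣ) → ℝ} (hg : NMix d k r g) (hV : 0 < Cov g g) :
    ∃ (S : Finset ι) (a : ι → ℤˣ),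
      (S.card : ℝ) ≤ 2 ^ 36 * 729 ^ r * (d * ((k : ℝ) ^ 3 * (d : ℝ) ^ 2 + (d : ℝ) ^ 6))
        / Cov g g ^ 5 ∧
      Cov g g / 2 ≤ (Ex (fun x => g (S.piecewise a x)) - Ex g) ^ 2 := by
  have hdpos : 0 < d := by
    rcases Nat.eq_zero_or_pos d with h | h
    · exfalso
      have : Cov g g = 0 := by
        rw [Cov_eq]
        refine Finset.sum_eq_zero fun S hS => ?_
        have h2 : fc g S = 0 := hg.deg S (by
          rw [h]
          exact Finset.card_pos.2 (Finset.nonempty_iff_ne_empty.2 (Finset.ne_of_mem_erase hS)))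
        rw [h2, zero_mul]
      exact hV.ne' this
    · exact h
  have hdR : (0 : ℝ) < d := by exact_mod_cast hdpos
  set V := Cov g g with hVdef
  set K : ℝ := 2 ^ 24 * 729 ^ r * ((k : ℝ) ^ 3 * (d : ℝ) ^ 2 + (d : ℝ) ^ 6) with hK
  have hK0 : 0 < K := by positivity
  have hε : 0 < (V / 4) ^ 5 / K := by positivity
  set ε := (V / 4) ^ 5 / K with hεdef
  let n : ℕ := ⌊4 * d / ε⌋₊
  obtain ⟨S, a, hc, h1⟩ := fix_aux (fun g : (ι → ℤˣ) → ℝ => NMix d k r g)
    (fun g l b hg => hg.fr l b)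
    (fun g hg x => by rw [abs_of_nonneg (hg.nonneg x)]; exact hg.le_one x)
    (V / 4) ε (by positivity) hε
    (fun g hg hv => hg.inf (V / 4) (by positivity) K hK hK0 hv) n g hg (Ex g)
  refine ⟨S, a, ?_, ?_⟩
  · have h2 : (n : ℝ) ≤ 4 * d / ε := Nat.floor_le (by positivity)
    have h3 : (S.card : ℝ) ≤ n := by exact_mod_cast hc
    refine (h3.trans h2).trans_eq ?_
    rw [hεdef, hK]
    field_simp
    norm_num
  · refine le_trans ?_ h1
    rw [Ex_sq_sub, sub_self, zero_pow (by norm_num), add_zero]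
    have h4 : 4 * d / ε < (n : ℝ) + 1 := Nat.lt_floor_add_one _
    have h5 := TI_le g d hg.deg
    have h6 : TI g / (((n : ℝ) + 1) * ε) ≤ V / 4 := by
      rw [div_le_iff₀ (by positivity)]
      rw [div_lt_iff₀ hε] at h4
      nlinarith
    linarith

end Pool.Agent.H746R2.AA
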