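import Pool.Agent.H746R2.AA.Basic

/-!
# Bonami's lemma and the `L¹`-`L²` comparison for functions of low degree
-/

set_option autoImplicit false
set_option linter.unusedSectionVars false

namespace Pool.Agent.H746R2.AA

open Finset Polynomial Pool.Agent.H722R2.AA

variable {ι : Type*} [Fintype ι] [DecidableEq ι]

/-- the part without `a` -/
def pz (a : ι) (p : Finset ι → ℝ) : Finset ι → ℝ := fun S => if a ∈ S then 0 else p S

/-- the derivative in direction `a` -/
def pd (a : ι) (p : Finset ι → ℝ) : Finset ι → ℝ := fun S => if a ∈ S then 0 else p (insert a S)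

lemma sum_split (a : ι) (f : Finset ι → ℝ) :
    ∑ S, f S = ∑ S, (if a ∈ S then 0 else f S) + ∑ S, (if a ∈ S then 0 else f (insert a S)) := by
  have h1 : ∑ S, f S = ∑ S, (if a ∈ S then 0 else f S) + ∑ S, (if a ∈ S then f S else 0) := by
    rw [← Finset.sum_add_distrib]
    refine Finset.sum_congr rfl fun S _ => ?_
    split_ifs <;> simp
  rw [h1]
  congr 1
  rw [← Finset.sum_filter]
  have h2 : ∑ S : Finset ι, (if a ∈ S then 0 else f (insert a S))
      = ∑ S ∈ Finset.univ.filter (fun S : Finset ι => a ∉ S), f (insert a S) := by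
    rw [Finset.sum_filter]
    refine Finset.sum_congr rfl fun S _ => ?_
    by_cases h : a ∈ S <;> simp [h]
  rw [h2]
  refine Finset.sum_nbij' (fun S => S.erase a) (fun S => insert a S) ?_ ?_ ?_ ?_ ?_
  · intro S _; simp
  · intro S _; simp
  · intro S hS
    exact Finset.insert_erase (Finset.mem_filter.mp hS).2
  · intro S hS
    exact Finset.erase_insert (Finset.mem_filter.mp hS).2
  · intro S hS
    rw [Finset.insert_erase (Finset.mem_filter.mp hS).2]

lemma ml_split (a : ι) (p : Finset ι → ℝ) (X : ι → ℝ) :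
    ml p X = ml (pz a p) X + X a * ml (pd a p) X := by
  unfold ml
  rw [sum_split a, Finset.mul_sum]
  congr 1
  · refine Finset.sum_congr rfl fun S _ => ?_
    unfold pz
    split_ifs <;> simp
  · refine Finset.sum_congr rfl fun S _ => ?_
    unfold pd
    split_ifs with h
    · simp
    · rw [Finset.prod_insert h]; ring

lemma ml_update_off (a : ι) (p : Finset ι → ℝ) (hp : ∀ S, a ∈ S → p S = 0) (x : ι → ℤˣ) (u : ℤˣ) :
    ml p (sg (Function.update x a u)) = ml p (sg x) := by
  unfold ml
  refine Finset.sum_congr rfl fun S _ => ?_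
  by_cases ha : a ∈ S
  · rw [hp S ha]; simp
  · rw [sg_update, prod_update_notMem S a ha]

lemma Ex_sg_zero (l : ι) (q : (ι → ℤˣ) → ℝ) (hq : ∀ x u, q (Function.update x l u) = q x) :
    Ex (fun x => sg x l * q x) = 0 := by
  have := Ex_sg_mul l q (fun _ => 1) hq
  simp only [mul_one] at this
  rw [this]
  have h0 : ∀ x, q x * D (fun _ => (1 : ℝ)) l x = 0 := by
    intro x; unfold D; simp
  rw [Ex_congr h0, Ex_const]

/-- Bonami's lemma. -/
lemma bonami_aux (A : Finset ι) : ∀ (r : ℕ) (c : Finset ι → ℝ), (∀ S, ¬ S ⊆ A → c S = 0) →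
    (∀ S, r < S.card → c S = 0) →
    Ex (fun x => ml c (sg x) ^ 4) ≤ 9 ^ r * Ex (fun x => ml c (sg x) ^ 2) ^ 2 := by
  induction A using Finset.induction_on with
  | empty =>
    intro r c hA _
    have h1 : ∀ x : ι → ℤˣ, ml c (sg x) = c ∅ := by
      intro x
      unfold ml
      rw [Finset.sum_eq_single ∅]
      · simp
      · intro S _ hS
        rw [hA S (fun h => hS (Finset.subset_empty.1 h)), zero_mul]
      · intro h; exact absurd (Finset.mem_univ _) h
    simp only [h1, Ex_const]
    have h2 : (1 : ℝ) ≤ 9 ^ r := one_le_pow₀ (by norm_num)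
    nlinarith [sq_nonneg (c ∅ ^ 2)]
  | insert a A ha ih =>
    intro r c hA hr
    set u : (ι → ℤˣ) → ℝ := fun x => ml (pz a c) (sg x) with hu
    set v : (ι → ℤˣ) → ℝ := fun x => ml (pd a c) (sg x) with hv
    have hu' : ∀ x t, u (Function.update x a t) = u x := fun x t =>
      ml_update_off a _ (fun S h => by simp [pz, h]) x t
    have hv' : ∀ x t, v (Function.update x a t) = v x := fun x t =>
      ml_update_off a _ (fun S h => by simp [pd, h]) x t
    have hs : ∀ x : ι → ℤˣ, ml c (sg x) = u x + sg x a * v x := fun x => ml_split a c (sg x)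
    have h2 : Ex (fun x => ml c (sg x) ^ 2) = Ex (fun x => u x ^ 2) + Ex (fun x => v x ^ 2) := by
      have e : ∀ x : ι → ℤˣ, ml c (sg x) ^ 2 = u x ^ 2 + v x ^ 2 + sg x a * (2 * u x * v x) := by
        intro x
        rw [hs]
        have := sg_mul_self x a
        linear_combination (v x) ^ 2 * this
      rw [Ex_congr e, Ex_add, Ex_add, Ex_sg_zero a (fun x => 2 * u x * v x)
        (fun x t => by simp only [hu', hv']), add_zero]
    have h4 : Ex (fun x => ml c (sg x) ^ 4) = Ex (fun x => u x ^ 4)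
        + 6 * Ex (fun x => u x ^ 2 * v x ^ 2) + Ex (fun x => v x ^ 4) := by
      have e : ∀ x : ι → ℤˣ, ml c (sg x) ^ 4 = u x ^ 4 + 6 * (u x ^ 2 * v x ^ 2) + v x ^ 4
          + sg x a * (4 * u x ^ 3 * v x + 4 * u x * v x ^ 3) := by
        intro x
        rw [hs]
        have := sg_mul_self x a
        linear_combination (6 * u x ^ 2 * v x ^ 2 + 4 * u x * v x ^ 3 * sg x a
          + v x ^ 4 * (sg x a * sg x a + 1)) * this
      rw [Ex_congr e, Ex_add, Ex_add, Ex_add, Ex_mul_left, Ex_sg_zero a
        (fun x => 4 * u x ^ 3 * v x + 4 * u x * v x ^ 3)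
        (fun x t => by simp only [hu', hv']), add_zero]
    have hU0 : 0 ≤ Ex (fun x => u x ^ 2) := Ex_nonneg fun _ => sq_nonneg _
    have hV0 : 0 ≤ Ex (fun x => v x ^ 2) := Ex_nonneg fun _ => sq_nonneg _
    have hX : Ex (fun x => u x ^ 4) ≤ 9 ^ r * Ex (fun x => u x ^ 2) ^ 2 := by
      refine ih r (pz a c) ?_ ?_
      · intro S hS
        unfold pz
        split_ifs with h
        · rfl
        · refine hA S fun hSA => hS fun i hi => ?_
          rcases Finset.mem_insert.1 (hSA hi) with rfl | h'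
          · exact absurd hi h
          · exact h'
      · intro S hS
        unfold pz
        split_ifs
        · rfl
        · exact hr S hS
    have hY : Ex (fun x => v x ^ 4) ≤ 9 ^ r / 9 * Ex (fun x => v x ^ 2) ^ 2 := by
      rcases Nat.eq_zero_or_pos r with h0 | hpos
      · have hv0 : ∀ x, v x = 0 := by
          intro x
          simp only [hv]
          unfold ml
          refine Finset.sum_eq_zero fun S _ => ?_
          unfold pd
          split_ifs with h
          · simp
          · rw [hr (insert a S) (by rw [h0]; exact Finset.card_pos.2 ⟨a, Finset.mem_insert_self _ _⟩),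
              zero_mul]
        simp only [hv0]
        simp [Ex_const]
      · obtain ⟨r', rfl⟩ : ∃ r', r = r' + 1 := ⟨r - 1, by omega⟩
        have := ih r' (pd a c) ?_ ?_
        · rw [pow_succ, mul_div_assoc, div_self (by norm_num : (9:ℝ) ≠ 0), mul_one]
          exact this
        · intro S hS
          unfold pd
          split_ifs with h
          · rfl
          · refine hA _ fun hSA => hS fun i hi => ?_
            rcases Finset.mem_insert.1 (hSA (Finset.mem_insert_of_mem hi)) with rfl | h'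
            · exact absurd hi h
            · exact h'
        · intro S hS
          unfold pd
          split_ifs with h
          · rfl
          · exact hr _ (by rw [Finset.card_insert_of_notMem h]; omega)
    have hZ : Ex (fun x => u x ^ 2 * v x ^ 2) ≤
        9 ^ r / 3 * (Ex (fun x => u x ^ 2) * Ex (fun x => v x ^ 2)) := by
      have h5 := Ex_mul_sq_le (fun x => u x ^ 2) (fun x => v x ^ 2)
      have e1 : ∀ g : (ι → ℤˣ) → ℝ, Ex (fun x => (g x ^ 2) ^ 2) = Ex (fun x => g x ^ 4) := by
        intro g; exact Ex_congr fun x => by ring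
      simp only [e1] at h5
      refine abs_le_of_sq_le_sq' ?_ (by positivity) |>.2
      refine h5.trans ?_
      have hV4 : 0 ≤ Ex (fun x => v x ^ 4) := Ex_nonneg fun x => by positivity
      calc Ex (fun x => u x ^ 4) * Ex (fun x => v x ^ 4)
          ≤ (9 ^ r * Ex (fun x => u x ^ 2) ^ 2) * (9 ^ r / 9 * Ex (fun x => v x ^ 2) ^ 2) :=
            mul_le_mul hX hY hV4 (by positivity)
        _ = (9 ^ r / 3 * (Ex (fun x => u x ^ 2) * Ex (fun x => v x ^ 2))) ^ 2 := by ring
    rw [h4, h2]
    have h9 : (0 : ℝ) ≤ 9 ^ r := by positivity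
    nlinarith [mul_nonneg h9 (sq_nonneg (Ex (fun x => v x ^ 2)))]

lemma bonami (r : ℕ) (c : Finset ι → ℝ) (hr : ∀ S, r < S.card → c S = 0) :
    Ex (fun x => ml c (sg x) ^ 4) ≤ 9 ^ r * Ex (fun x => ml c (sg x) ^ 2) ^ 2 :=
  bonami_aux Finset.univ r c (fun S hS => absurd (Finset.subset_univ S) hS) hr

/-- `‖R‖₂ ≤ 3^r ‖R‖₁` for functions of degree at most `r`. -/
lemma l2_le_l1 (r : ℕ) (R : (ι → ℤˣ) → ℝ) (hr : ∀ S : Finset ι, r < S.card → fc R S = 0) :
    Real.sqrt (Ex (fun x => R x ^ 2)) ≤ 3 ^ r * Ex (fun x => |R x|) := by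
  set b := Ex (fun x => R x ^ 2) with hb
  set a := Ex (fun x => |R x|) with ha
  have ha0 : 0 ≤ a := Ex_nonneg fun _ => abs_nonneg _
  have hb0 : 0 ≤ b := Ex_nonneg fun _ => sq_nonneg _
  have h4 : Ex (fun x => R x ^ 4) ≤ 9 ^ r * b ^ 2 := by
    have := bonami r (fc R) hr
    simpa only [ml_fc] using this
  -- two applications of Cauchy-Schwarz
  have h1 : b ^ 2 ≤ a * Ex (fun x => |R x| ^ 3) := by
    have := Ex_mul_sq_le (fun x => Real.sqrt |R x|) (fun x => Real.sqrt |R x| ^ 3)
    have e1 : ∀ x, Real.sqrt |R x| * Real.sqrt |R x| ^ 3 = R x ^ 2 := by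
      intro x
      have h := Real.sq_sqrt (abs_nonneg (R x))
      calc Real.sqrt |R x| * Real.sqrt |R x| ^ 3 = (Real.sqrt |R x| ^ 2) ^ 2 := by ring
        _ = R x ^ 2 := by rw [h, sq_abs]
    have e2 : ∀ x, Real.sqrt |R x| ^ 2 = |R x| := fun x => Real.sq_sqrt (abs_nonneg (R x))
    have e3 : ∀ x, (Real.sqrt |R x| ^ 3) ^ 2 = |R x| ^ 3 := by
      intro x
      calc (Real.sqrt |R x| ^ 3) ^ 2 = (Real.sqrt |R x| ^ 2) ^ 3 := by ring
        _ = _ := by rw [e2]
    simp only [e1, e2, e3] at this
    exact this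
  have h2 : Ex (fun x => |R x| ^ 3) ^ 2 ≤ b * Ex (fun x => R x ^ 4) := by
    have := Ex_mul_sq_le (fun x => |R x|) (fun x => |R x| ^ 2)
    have e1 : ∀ x, |R x| * |R x| ^ 2 = |R x| ^ 3 := fun x => by ring
    have e2 : ∀ x, |R x| ^ 2 = R x ^ 2 := fun x => sq_abs _
    have e3 : ∀ x, (|R x| ^ 2) ^ 2 = R x ^ 4 := fun x => by rw [sq_abs]; ring
    simp only [e1, e3] at this
    simp only [e2] at this
    exact this
  have h3 : b ≤ 9 ^ r * a ^ 2 := by
    rcases hb0.eq_or_lt with h0 | hpos
    · rw [← h0]; positivity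
    · set t := Ex (fun x => |R x| ^ 3) with ht
      have ht0 : 0 ≤ t := Ex_nonneg fun _ => by positivity
      have h5 : t ^ 2 ≤ 9 ^ r * b ^ 3 := by
        calc t ^ 2 ≤ b * (9 ^ r * b ^ 2) := h2.trans (mul_le_mul_of_nonneg_left h4 hb0)
          _ = _ := by ring
      have h6 : b ^ 4 ≤ a ^ 2 * t ^ 2 := by
        calc b ^ 4 = (b ^ 2) ^ 2 := by ring
          _ ≤ (a * t) ^ 2 := pow_le_pow_left₀ (by positivity) h1 2
          _ = _ := by ring
      have h7 : b ^ 3 * b ≤ b ^ 3 * (9 ^ r * a ^ 2) := by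
        calc b ^ 3 * b = b ^ 4 := by ring
          _ ≤ a ^ 2 * t ^ 2 := h6
          _ ≤ a ^ 2 * (9 ^ r * b ^ 3) := mul_le_mul_of_nonneg_left h5 (by positivity)
          _ = _ := by ring
      exact le_of_mul_le_mul_left h7 (by positivity)
  rw [show (9 : ℝ) = 3 ^ 2 by norm_num, ← pow_mul, mul_comm 2 r, pow_mul, ← mul_pow] at h3
  exact Real.sqrt_le_iff.2 ⟨by positivity, h3⟩

/-- A bounded function of degree `r` is in the span of the coordinates over functions whose
`L²` norms have a bounded sum. -/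
lemma low_decomp (r : ℕ) (R : (ι → ℤˣ) → ℝ) (hr : ∀ S : Finset ι, r < S.card → fc R S = 0)
    (Λ : ℝ) (hΛ : ∀ x, |R x| ≤ Λ) :
    ∃ q : ι → (ι → ℤˣ) → ℝ, (∀ l x u, q l (Function.update x l u) = q l x) ∧
      (∀ x, R x = fc R ∅ + ∑ l, sg x l * q l x) ∧
      ∑ l, Real.sqrt (Ex (fun x => q l x ^ 2)) ≤ 2 * (r : ℝ) ^ 2 * 3 ^ r * Λ := by
  classical
  let c' : Finset ι → ℝ := fun S => fc R S / S.card
  refine ⟨fun l x => dl c' l (sg x), ?_, ?_, ?_⟩
  · intro l x u
    unfold dl
    refine Finset.sum_congr rfl fun S _ => ?_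
    split_ifs with h
    · rw [sg_update, prod_update_notMem _ _ (Finset.notMem_erase l S)]
    · rfl
  · intro x
    have h1 : ∀ e, sg x e * dl c' e (sg x) = ∑ S : Finset ι, if e ∈ S then c' S * ∏ e ∈ S, sg x e else 0 := by
      intro e
      unfold dl
      rw [Finset.mul_sum]
      refine Finset.sum_congr rfl fun S _ => ?_
      split_ifs with h
      · rw [← Finset.mul_prod_erase S _ h]; ring
      · simp
    simp only [h1]
    rw [Finset.sum_comm]
    have h2 : ∀ S : Finset ι, (∑ e : ι, if e ∈ S then c' S * ∏ e ∈ S, sg x e else 0)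
        = if S = ∅ then 0 else fc R S * ∏ e ∈ S, sg x e := by
      intro S
      rw [Finset.sum_ite_mem, Finset.univ_inter, Finset.sum_const, nsmul_eq_mul]
      split_ifs with h
      · simp [h]
      · have : (S.card : ℝ) ≠ 0 := by
          rw [Nat.cast_ne_zero]
          exact (Finset.card_pos.2 (Finset.nonempty_iff_ne_empty.2 h)).ne'
        simp only [c']
        field_simp
    rw [Finset.sum_congr rfl (fun S _ => h2 S)]
    conv_lhs => rw [← ml_fc R x]
    unfold ml
    rw [← Finset.add_sum_erase Finset.univ _ (Finset.mem_univ ∅),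
      ← Finset.add_sum_erase Finset.univ (fun S : Finset ι => if S = ∅ then 0
        else fc R S * ∏ e ∈ S, sg x e) (Finset.mem_univ ∅)]
    simp only [Finset.prod_empty, mul_one, if_true, zero_add]
    congr 1
    refine Finset.sum_congr rfl fun S hS => ?_
    rw [if_neg (Finset.ne_of_mem_erase hS)]
  · -- compare with the influences
    have hN : (2 : ℝ) ^ Fintype.card ι ≠ 0 := pow_pos'.ne'
    have h1 : ∀ l, Real.sqrt (Ex (fun x => (dl c' l (sg x)) ^ 2)) ≤ Real.sqrt (Inf R l) := by
      intro l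
      refine Real.sqrt_le_sqrt ?_
      rw [Inf_eq]
      have : Ex (fun x => (dl c' l (sg x)) ^ 2) = ∑ S : Finset ι, if l ∈ S then c' S ^ 2 else 0 := by
        unfold Ex
        rw [sum_dl_sq, mul_div_cancel_left₀ _ hN]
      rw [this]
      refine Finset.sum_le_sum fun S _ => ?_
      split_ifs with h
      · have hS : (1 : ℝ) ≤ S.card := by
          exact_mod_cast Finset.card_pos.2 ⟨l, h⟩
        simp only [c', div_pow]
        exact div_le_self (sq_nonneg _) (one_le_pow₀ hS)
      · exact le_rfl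
    have h2 : ∀ l, Real.sqrt (Inf R l) ≤ 3 ^ r * Ex (fun x => |D R l x|) := by
      intro l
      -- the function `x_l D_l R`
      let cl : Finset ι → ℝ := fun S => if l ∈ S then fc R S else 0
      have e1 : ∀ x : ι → ℤˣ, D R l x = sg x l * ml cl (sg x) := by
        intro x
        rw [D_eq]
        unfold dl ml
        rw [Finset.mul_sum]
        refine Finset.sum_congr rfl fun S _ => ?_
        simp only [cl]
        split_ifs with h
        · rw [← Finset.mul_prod_erase S _ h]
          have := sg_mul_self x l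
          calc fc R S * ∏ e ∈ S.erase l, sg x e
              = (sg x l * sg x l) * (fc R S * ∏ e ∈ S.erase l, sg x e) := by rw [this, one_mul]
            _ = _ := by ring
        · ring
      have e2 : ∀ x : ι → ℤˣ, D R l x ^ 2 = ml cl (sg x) ^ 2 := by
        intro x
        rw [e1, mul_pow, sq (sg x l), sg_mul_self, one_mul]
      have e3 : ∀ x : ι → ℤˣ, |D R l x| = |ml cl (sg x)| := by
        intro x
        rw [e1, abs_mul]
        have : |sg x l| = 1 := by rcases sg_cases x l with h | h <;> rw [h] <;> norm_num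
        rw [this, one_mul]
      unfold Inf
      rw [Ex_congr e2, Ex_congr e3]
      refine l2_le_l1 r (fun x => ml cl (sg x)) ?_
      intro S hS
      rw [fc_ml]
      simp only [cl]
      split_ifs
      · exact hr S hS
      · rfl
    have h3 : ∀ x : ι → ℤˣ, ∑ l, |D R l x| ≤ 2 * (r : ℝ) ^ 2 * Λ := by
      intro x
      have hm := fun A => markov_pt (fc R) r hr Λ (fun y hy => by
        obtain ⟨u, rfl⟩ := exists_sg y hy
        rw [ml_fc]; exact hΛ u) (sg x) (sg_isSgn x) A
      have m1 := hm (Finset.univ.filter fun l => 0 ≤ sg x l * dl (fc R) l (sg x))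
      have m2 := hm (Finset.univ.filter fun l => ¬ 0 ≤ sg x l * dl (fc R) l (sg x))
      have e3 : ∀ l, |D R l x| = |sg x l * dl (fc R) l (sg x)| := by
        intro l
        rw [D_eq, abs_mul]
        have : |sg x l| = 1 := by rcases sg_cases x l with h | h <;> rw [h] <;> norm_num
        rw [this, one_mul]
      simp_rw [e3]
      rw [← Finset.sum_filter_add_sum_filter_not Finset.univ
        (fun l => 0 ≤ sg x l * dl (fc R) l (sg x))]
      rw [Finset.sum_congr rfl (fun l hl => abs_of_nonneg (Finset.mem_filter.1 hl).2),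
        Finset.sum_congr (s₁ := Finset.univ.filter fun l => ¬ 0 ≤ sg x l * dl (fc R) l (sg x)) rfl
        (fun l hl => abs_of_neg (not_le.1 (Finset.mem_filter.1 hl).2)),
        Finset.sum_neg_distrib]
      have n1 := (le_abs_self _).trans m1
      have n2 := (neg_le_abs _).trans m2
      linarith
    calc ∑ l, Real.sqrt (Ex (fun x => (dl c' l (sg x)) ^ 2))
        ≤ ∑ l, 3 ^ r * Ex (fun x => |D R l x|) :=
          Finset.sum_le_sum fun l _ => (h1 l).trans (h2 l)
      _ = 3 ^ r * Ex (fun x => ∑ l, |D R l x|) := by rw [← Finset.mul_sum, Ex_sum]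
      _ ≤ 3 ^ r * (2 * (r : ℝ) ^ 2 * Λ) :=
          mul_le_mul_of_nonneg_left (Ex_le_const h3) (by positivity)
      _ = _ := by ring

end Pool.Agent.H746R2.AA
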