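import Pool.Agent.H746R2.AA.Basic

/-!
# Covariance with mixtures of juntas and low degree functions
-/

set_option autoImplicit false
set_option linter.unusedSectionVars false

namespace Pool.Agent.H746R2.AA

open Finset Polynomial Pool.Agent.H722R2.AA

variable {ι : Type*} [Fintype ι] [DecidableEq ι] {κ : Type*} [DecidableEq κ]

/-- At every base point, planting small sets that cover every coordinate outside `L` with weight
at most `θ` moves `h` by at most `4 k θ d² B` in total. -/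
lemma load_bound [Fintype κ] (h : (ι → ℤˣ) → ℝ) (d : ℕ)
    (hd : ∀ S : Finset ι, d < S.card → fc h S = 0)
    (B : ℝ) (hB : ∀ x, |h x| ≤ B) (L : Finset ι)
    (hL : ∀ x y : ι → ℤˣ, (∀ i ∉ L, x i = y i) → h x = h y)
    (T : Finset κ) (k : ℕ) (C : κ → Finset ι) (hC : ∀ a ∈ T, (C a).card ≤ k) (w : κ → ℝ)
    (hw : ∀ a, 0 ≤ w a) (θ : ℝ) (hθ : 0 ≤ θ)
    (hload : ∀ a ∈ T, ∀ l ∈ C a, l ∉ L → ∑ b ∈ T.filter (fun b => l ∈ C b), w b ≤ θ)
    (y : ι → ℤˣ) (z : κ → ι → ℤˣ) :
    ∑ a ∈ T, w a * |h ((C a).piecewise (z a) y) - h y| ≤ k * θ * (4 * (d : ℝ) ^ 2 * B) := by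
  classical
  let A : κ → Finset ι := fun a => C a \ L
  have hA : ∀ a, h ((C a).piecewise (z a) y) = h ((A a).piecewise (z a) y) := by
    intro a
    refine hL _ _ fun i hi => ?_
    by_cases hia : i ∈ C a
    · rw [Finset.piecewise_eq_of_mem _ _ _ hia, Finset.piecewise_eq_of_mem]
      exact Finset.mem_sdiff.2 ⟨hia, hi⟩
    · rw [Finset.piecewise_eq_of_notMem _ _ _ hia, Finset.piecewise_eq_of_notMem]
      exact fun hmem => hia (Finset.mem_sdiff.1 hmem).1
  simp_rw [hA]
  have hfil : ∀ l ∉ L, T.filter (fun b => l ∈ A b) = T.filter (fun b => l ∈ C b) := by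
    intro l hl
    refine Finset.filter_congr fun b _ => ?_
    simp only [A, Finset.mem_sdiff]
    exact ⟨fun hh => hh.1, fun hh => ⟨hh, hl⟩⟩
  obtain ⟨I, hIT, hdis, hsum⟩ := greedy k θ hθ A w (fun a => |h ((A a).piecewise (z a) y) - h y|)
    hw (fun _ => abs_nonneg _) T.card T rfl
    (fun a ha => (Finset.card_le_card Finset.sdiff_subset).trans (hC a ha))
    (by
      intro a _ ha
      have h0 : (A a).piecewise (z a) y = y := by
        funext i
        exact Finset.piecewise_eq_of_notMem _ _ _ (by rw [ha]; simp)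
      rw [h0, sub_self, abs_zero])
    (by
      intro a ha l hl
      obtain ⟨hl1, hl2⟩ := Finset.mem_sdiff.1 hl
      rw [hfil l hl2]
      exact hload a ha l hl1 hl2)
  refine hsum.trans ?_
  refine mul_le_mul_of_nonneg_left ?_ (by positivity)
  exact block_markov h d hd B hB y z I A hdis

section mix

variable [Fintype κ] (C : κ → Finset ι) (J Q : κ → (ι → ℤˣ) → ℝ)

/-- The mixture. -/
def mix (x : ι → ℤˣ) : ℝ := ∑ a, J a x * Q a x

/-- The mixture with the juntas averaged out. -/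
noncomputable def avg (y : ι → ℤˣ) : ℝ :=
  ∑ a, Ex (fun z => J a z * Q a ((C a).piecewise z y))

variable {C J}

lemma Ex_junta_mul (hJ : ∀ a x y, (∀ i ∈ C a, x i = y i) → J a x = J a y) (a : κ)
    (G : (ι → ℤˣ) → ℝ) :
    Ex (fun x => J a x * G x) = Ex (fun z => Ex (fun y => J a z * G ((C a).piecewise z y))) := by
  rw [Ex_overlay (C a)]
  refine Ex_congr fun z => Ex_congr fun y => ?_
  rw [hJ a ((C a).piecewise z y) z fun i hi => Finset.piecewise_eq_of_mem _ _ _ hi]

lemma Ex_avg_mul (G : (ι → ℤˣ) → ℝ) :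
    Ex (fun y => avg C J Q y * G y)
      = ∑ a, Ex (fun y => Ex (fun z => J a z * (Q a ((C a).piecewise z y) * G y))) := by
  have h1 : ∀ y, avg C J Q y * G y
      = ∑ a, Ex (fun z => J a z * (Q a ((C a).piecewise z y) * G y)) := by
    intro y
    unfold avg
    rw [Finset.sum_mul]
    refine Finset.sum_congr rfl fun a _ => ?_
    rw [← Ex_mul_right]
    exact Ex_congr fun z => by ring
  rw [Ex_congr h1, Ex_sum]

lemma Ex_avg (hJ : ∀ a x y, (∀ i ∈ C a, x i = y i) → J a x = J a y) :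
    Ex (avg C J Q) = Ex (mix J Q) := by
  have h1 := Ex_avg_mul (C := C) (J := J) Q (fun _ => 1)
  simp only [mul_one] at h1
  have h2 : Ex (mix J Q) = ∑ a, Ex (fun x => J a x * Q a x) := by
    unfold mix; rw [Ex_sum]
  rw [show Ex (avg C J Q) = Ex (fun y => avg C J Q y) from rfl, h1, h2]
  refine Finset.sum_congr rfl fun a _ => ?_
  rw [Ex_junta_mul hJ, Ex_comm]

/-- The difference of the covariances. -/
lemma Cov_mix_sub (hJ : ∀ a x y, (∀ i ∈ C a, x i = y i) → J a x = J a y) (h : (ι → ℤˣ) → ℝ) :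
    Cov (mix J Q) h - Cov (avg C J Q) h =
      Ex (fun y => ∑ a, Ex (fun z => J a z * (Q a ((C a).piecewise z y) *
        (h ((C a).piecewise z y) - h y)))) := by
  have h1 : Ex (fun x => mix J Q x * h x)
      = ∑ a, Ex (fun y => Ex (fun z => J a z * (Q a ((C a).piecewise z y) *
        h ((C a).piecewise z y)))) := by
    have h2 : ∀ x, mix J Q x * h x = ∑ a, J a x * (Q a x * h x) := by
      intro x; unfold mix; rw [Finset.sum_mul]
      exact Finset.sum_congr rfl fun a _ => by ring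
    rw [Ex_congr h2, Ex_sum]
    refine Finset.sum_congr rfl fun a _ => ?_
    rw [Ex_junta_mul hJ a (fun x => Q a x * h x), Ex_comm]
  unfold Cov
  rw [h1, Ex_avg_mul Q h, Ex_avg Q hJ]
  rw [Ex_sum, sub_sub_sub_cancel_right, ← Finset.sum_sub_distrib]
  refine Finset.sum_congr rfl fun a _ => ?_
  rw [← Ex_sub]
  refine Ex_congr fun y => ?_
  rw [← Ex_sub]
  exact Ex_congr fun z => by ring

/-- The main estimate for bounded `Q`. -/
lemma Cov_mix_le (hJ : ∀ a x y, (∀ i ∈ C a, x i = y i) → J a x = J a y)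
    (hQ : ∀ a x, |Q a x| ≤ 1) (h : (ι → ℤˣ) → ℝ) (d : ℕ)
    (hd : ∀ S : Finset ι, d < S.card → fc h S = 0)
    (B : ℝ) (hB : ∀ x, |h x| ≤ B) (L : Finset ι)
    (hL : ∀ x y : ι → ℤˣ, (∀ i ∉ L, x i = y i) → h x = h y)
    (k : ℕ) (hC : ∀ a, (C a).card ≤ k) (θ : ℝ) (hθ : 0 ≤ θ)
    (hload : ∀ l ∉ L, ∑ a ∈ Finset.univ.filter (fun a => l ∈ C a), Ex (fun x => |J a x|) ≤ θ) :
    |Cov (mix J Q) h - Cov (avg C J Q) h| ≤ k * θ * (4 * (d : ℝ) ^ 2 * B) := by
  classical
  rw [Cov_mix_sub Q hJ]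
  refine (abs_Ex_le _).trans (Ex_le_const fun y => ?_)
  -- choose the worst target
  have hmax : ∀ a, ∃ z : ι → ℤˣ, ∀ z', |h ((C a).piecewise z' y) - h y| ≤
      |h ((C a).piecewise z y) - h y| := fun a =>
    Finite.exists_max fun z' => |h ((C a).piecewise z' y) - h y|
  choose zm hzm using hmax
  have h1 : |∑ a, Ex (fun z => J a z * (Q a ((C a).piecewise z y) *
        (h ((C a).piecewise z y) - h y)))|
      ≤ ∑ a, Ex (fun x => |J a x|) * |h ((C a).piecewise (zm a) y) - h y| := by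
    refine (Finset.abs_sum_le_sum_abs _ _).trans (Finset.sum_le_sum fun a _ => ?_)
    refine (abs_Ex_le _).trans ?_
    rw [← Ex_mul_right]
    refine Ex_mono fun z => ?_
    rw [abs_mul, abs_mul]
    refine mul_le_mul_of_nonneg_left ?_ (abs_nonneg _)
    calc |Q a ((C a).piecewise z y)| * |h ((C a).piecewise z y) - h y|
        ≤ 1 * |h ((C a).piecewise (zm a) y) - h y| :=
          mul_le_mul (hQ _ _) (hzm a z) (abs_nonneg _) (by norm_num)
      _ = _ := one_mul _
  refine h1.trans ?_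
  exact load_bound h d hd B hB L hL Finset.univ k C (fun a _ => hC a)
    (fun a => Ex (fun x => |J a x|)) (fun a => Ex_nonneg fun _ => abs_nonneg _) θ hθ
    (fun a _ l _ hl => hload l hl) y zm

end mix

/-- Covariance with a function in the span of the coordinates over small functions. -/
lemma Cov_low (R h : (ι → ℤˣ) → ℝ) (c : ℝ) (q : ι → (ι → ℤˣ) → ℝ)
    (hq : ∀ l x u, q l (Function.update x l u) = q l x)
    (hR : ∀ x, R x = c + ∑ l, sg x l * q l x) (M : ℝ) (hM : ∀ l, Real.sqrt (Inf h l) ≤ M) :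
    |Cov R h| ≤ (∑ l, Real.sqrt (Ex (fun x => q l x ^ 2))) * M := by
  have hz : ∀ l, Ex (fun x => sg x l * q l x) = 0 := by
    intro l
    have := Ex_sg_mul l (q l) (fun _ => 1) (hq l)
    simp only [mul_one] at this
    rw [this]
    have h0 : ∀ x, q l x * D (fun _ => (1 : ℝ)) l x = 0 := by
      intro x; unfold D; simp
    rw [Ex_congr h0, Ex_const]
  have h1 : Cov R h = ∑ l, Ex (fun x => sg x l * q l x * h x) := by
    unfold Cov
    have e1 : ∀ x, R x * h x = c * h x + ∑ l, sg x l * q l x * h x := by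
      intro x; rw [hR, add_mul, Finset.sum_mul]
    have e2 : Ex R = c := by
      rw [Ex_congr hR, Ex_add (fun _ => c) (fun x => ∑ l, sg x l * q l x), Ex_const, Ex_sum]
      simp [hz]
    rw [Ex_congr e1, Ex_add, Ex_mul_left, e2, Ex_sum]
    ring
  rw [h1, Finset.sum_mul]
  refine (Finset.abs_sum_le_sum_abs _ _).trans (Finset.sum_le_sum fun l _ => ?_)
  exact (abs_Ex_sg_mul_le l (q l) h (hq l)).trans
    (mul_le_mul_of_nonneg_left (hM l) (Real.sqrt_nonneg _))

end Pool.Agent.H746R2.AA
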