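import Pool.Agent.H746R2.AA.Mix
import Pool.Agent.H746R2.AA.Hyper

/-!
# The strengthened Aaronson-Ambainis inequality for mixtures
-/

set_option autoImplicit false
set_option linter.unusedSectionVars false

namespace Pool.Agent.H746R2.AA

open Finset Polynomial Pool.Agent.H722R2.AA

variable {ι : Type*} [Fintype ι] [DecidableEq ι] {κ : Type*} [DecidableEq κ] [Fintype κ]

lemma fc_overlay (Q : (ι → ℤˣ) → ℝ) (r : ℕ) (hr : ∀ S : Finset ι, r < S.card → fc Q S = 0)
    (C : Finset ι) (z : ι → ℤˣ) (S : Finset ι) (hS : r < S.card) :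
    fc (fun y => Q (C.piecewise z y)) S = 0 := by
  rw [fc_eq_Ex]
  have h1 : ∀ y : ι → ℤˣ, Q (C.piecewise z y) * ∏ i ∈ S, sg y i
      = ∑ U : Finset ι, (fc Q U * ∏ i ∈ U ∩ C, sg z i) * ((∏ i ∈ U \ C, sg y i) * ∏ i ∈ S, sg y i) := by
    intro y
    rw [← ml_fc Q (C.piecewise z y)]
    unfold ml
    rw [Finset.sum_mul]
    refine Finset.sum_congr rfl fun U _ => ?_
    have h2 : ∏ e ∈ U, sg (C.piecewise z y) e = (∏ i ∈ U ∩ C, sg z i) * ∏ i ∈ U \ C, sg y i := by
      rw [← Finset.prod_inter_mul_prod_sdiff U C]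
      congr 1
      · refine Finset.prod_congr rfl fun i hi => ?_
        unfold sg
        rw [Finset.piecewise_eq_of_mem _ _ _ (Finset.mem_inter.1 hi).2]
      · refine Finset.prod_congr rfl fun i hi => ?_
        unfold sg
        rw [Finset.piecewise_eq_of_notMem _ _ _ (Finset.mem_sdiff.1 hi).2]
    rw [h2]; ring
  rw [Ex_congr h1, Ex_sum]
  refine Finset.sum_eq_zero fun U _ => ?_
  rw [Ex_mul_left, Ex_chi_mul]
  split_ifs with h
  · have : r < U.card := by
      refine lt_of_lt_of_le hS ?_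
      rw [← h]
      exact Finset.card_le_card Finset.sdiff_subset
    rw [hr U this]; simp
  · simp

section

variable {C : κ → Finset ι} {J : κ → (ι → ℤˣ) → ℝ} (Q : κ → (ι → ℤˣ) → ℝ)

lemma fc_avg (r : ℕ) (hr : ∀ a, ∀ S : Finset ι, r < S.card → fc (Q a) S = 0)
    (S : Finset ι) (hS : r < S.card) : fc (avg C J Q) S = 0 := by
  rw [fc_eq_Ex, Ex_avg_mul]
  refine Finset.sum_eq_zero fun a _ => ?_
  rw [Ex_comm]
  have h1 : ∀ z : ι → ℤˣ, Ex (fun y => J a z * (Q a ((C a).piecewise z y) * ∏ i ∈ S, sg y i)) = 0 := by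
    intro z
    rw [Ex_mul_left]
    have := fc_overlay (Q a) r (hr a) (C a) z S hS
    rw [fc_eq_Ex] at this
    rw [this, mul_zero]
  rw [Ex_congr h1, Ex_const]

lemma abs_avg_le (hQ : ∀ a x, |Q a x| ≤ 1) (y : ι → ℤˣ) :
    |avg C J Q y| ≤ ∑ a, Ex (fun x => |J a x|) := by
  unfold avg
  refine (Finset.abs_sum_le_sum_abs _ _).trans (Finset.sum_le_sum fun a _ => ?_)
  refine (abs_Ex_le _).trans (Ex_mono fun z => ?_)
  rw [abs_mul]
  exact mul_le_of_le_one_right (abs_nonneg _) (hQ _ _)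

end

lemma opt_theta {V a b c : ℝ} (ha : 0 ≤ a) (hb : 0 ≤ b)
    (h : ∀ θ : ℝ, 0 < θ → V ≤ a * θ + b / θ + c) : V ≤ 2 * Real.sqrt (a * b) + c := by
  rcases ha.eq_or_lt with ha0 | ha0
  · -- let θ → ∞
    rw [← ha0, zero_mul, Real.sqrt_zero, mul_zero, zero_add]
    by_contra hcon
    push Not at hcon
    have hd : 0 < V - c := by linarith
    have h1 := h ((b + 1) / (V - c)) (by positivity)
    rw [← ha0, zero_mul, zero_add, div_div_eq_mul_div] at h1
    have h2 : b * (V - c) / (b + 1) < V - c := by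
      rw [div_lt_iff₀ (by positivity)]
      nlinarith
    linarith
  · rcases hb.eq_or_lt with hb0 | hb0
    · rw [← hb0, mul_zero, Real.sqrt_zero, mul_zero, zero_add]
      by_contra hcon
      push Not at hcon
      have hd : 0 < V - c := by linarith
      have h1 := h ((V - c) / (2 * a)) (by positivity)
      rw [← hb0, zero_div, add_zero] at h1
      have h2 : a * ((V - c) / (2 * a)) = (V - c) / 2 := by
        field_simp
      linarith
    · have h1 := h (Real.sqrt (b / a)) (Real.sqrt_pos.2 (by positivity))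
      have e1 : a * Real.sqrt (b / a) = Real.sqrt (a * b) := by
        rw [Real.sqrt_div' _ ha, Real.sqrt_mul ha]
        have := Real.mul_self_sqrt ha
        have h3 : Real.sqrt a ≠ 0 := (Real.sqrt_pos.2 ha0).ne'
        rw [← mul_div_assoc, div_eq_iff h3]
        linear_combination (-Real.sqrt b) * this
      have e2 : b / Real.sqrt (b / a) = Real.sqrt (a * b) := by
        rw [Real.sqrt_div' _ ha, Real.sqrt_mul ha]
        have := Real.mul_self_sqrt hb
        have h3 : Real.sqrt a ≠ 0 := (Real.sqrt_pos.2 ha0).ne'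
        have h4 : Real.sqrt b ≠ 0 := (Real.sqrt_pos.2 hb0).ne'
        rw [div_div_eq_mul_div, div_eq_iff h4]
        linear_combination (-Real.sqrt a) * this
      rw [e1, e2] at h1
      linarith

/-- General form. -/
theorem strong_mix (d : ℕ) (f : (ι → ℤˣ) → ℝ) (hd : ∀ S : Finset ι, d < S.card → fc f S = 0)
    (B : ℝ) (hB : ∀ x, |f x| ≤ B) (k : ℕ) (C : κ → Finset ι) (hC : ∀ a, (C a).card ≤ k)
    (J Q : κ → (ι → ℤˣ) → ℝ) (hJ : ∀ a x y, (∀ i ∈ C a, x i = y i) → J a x = J a y)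
    (hQ : ∀ a x, |Q a x| ≤ 1)
    (hclose : Ex (fun x => (f x - mix J Q x) ^ 2) ≤ Cov f f / 2)
    (c : ℝ) (q : ι → (ι → ℤˣ) → ℝ)
    (hq : ∀ l x u, q l (Function.update x l u) = q l x)
    (hR : ∀ x, avg C J Q x = c + ∑ l, sg x l * q l x) (M : ℝ) (hM : ∀ l, Real.sqrt (Inf f l) ≤ M)
    (hM0 : 0 ≤ M) :
    Cov f f ≤ (12 * k * d * Real.sqrt ((∑ a, Ex (fun x => |J a x|)) * B)
      + 4 * ∑ l, Real.sqrt (Ex (fun x => q l x ^ 2))) * M := by
  classical
  set Λ := ∑ a, Ex (fun x => |J a x|) with hΛ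
  set K := ∑ l, Real.sqrt (Ex (fun x => q l x ^ 2)) with hK
  set V := Cov f f with hV
  have hB0 : 0 ≤ B := (abs_nonneg _).trans (hB 1)
  have hw0 : ∀ a, 0 ≤ Ex (fun x => |J a x|) := fun a => Ex_nonneg fun _ => abs_nonneg _
  have hΛ0 : 0 ≤ Λ := Finset.sum_nonneg fun a _ => hw0 a
  have hMinf : ∀ l, Inf f l ≤ M ^ 2 := by
    intro l
    have h1 := hM l
    have h2 := Real.sq_sqrt (Inf_nonneg f l)
    rw [← h2]
    exact pow_le_pow_left₀ (Real.sqrt_nonneg _) h1 2
  have key : ∀ θ : ℝ, 0 < θ → V ≤ (16 * k * (d : ℝ) ^ 2 * B) * θ + (2 * k * Λ * M ^ 2) / θ + 4 * K * M := by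
    intro θ hθ
    -- the coordinates with large load
    let p : ι → ℝ := fun l => ∑ a ∈ Finset.univ.filter (fun a => l ∈ C a), Ex (fun x => |J a x|)
    let L : Finset ι := Finset.univ.filter fun l => θ < p l
    have hLload : ∀ l ∉ L, p l ≤ θ := by
      intro l hl
      by_contra hcon
      exact hl (Finset.mem_filter.2 ⟨Finset.mem_univ _, not_le.1 hcon⟩)
    have hLcard : (L.card : ℝ) * θ ≤ k * Λ := by
      have h1 : (L.card : ℝ) * θ ≤ ∑ l ∈ L, p l := by
        rw [← nsmul_eq_mul]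
        refine Finset.card_nsmul_le_sum _ _ _ fun l hl => ?_
        exact (Finset.mem_filter.1 hl).2.le
      have h2 : ∑ l ∈ L, p l ≤ ∑ l, p l :=
        Finset.sum_le_sum_of_subset_of_nonneg (Finset.subset_univ _)
          fun l _ _ => Finset.sum_nonneg fun a _ => hw0 a
      have h3 : ∑ l, p l ≤ k * Λ := by
        simp only [p, Finset.sum_filter]
        rw [Finset.sum_comm, hΛ, Finset.mul_sum]
        refine Finset.sum_le_sum fun a _ => ?_
        rw [Finset.sum_ite_mem, Finset.univ_inter, Finset.sum_const, nsmul_eq_mul]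
        exact mul_le_mul_of_nonneg_right (by exact_mod_cast hC a) (hw0 a)
      linarith
    let h := proj L f
    have hVh : V ≤ Cov h h + L.card * M ^ 2 := by
      refine (var_le_proj L f).trans ?_
      refine add_le_add le_rfl ?_
      rw [← nsmul_eq_mul]
      exact Finset.sum_le_card_nsmul _ _ _ fun l _ => hMinf l
    have h1 : Cov h h = Cov f h := (Cov_proj L f).symm
    -- split
    have hsplit : Cov f h = (Cov (mix J Q) h - Cov (avg C J Q) h) + Cov (avg C J Q) h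
        + Ex (fun x => (f x - mix J Q x) * (h x - Ex h)) := by
      have e1 : Ex (fun x => (f x - mix J Q x) * (h x - Ex h))
          = Cov f h - Cov (mix J Q) h := by
        have e2 : ∀ x, (f x - mix J Q x) * (h x - Ex h)
            = (f x * h x - mix J Q x * h x) - (f x * Ex h - mix J Q x * Ex h) := by
          intro x; ring
        rw [Ex_congr e2, Ex_sub, Ex_sub, Ex_sub, Ex_mul_right, Ex_mul_right]
        unfold Cov; ring
      rw [e1]; ring
    have hcs : Ex (fun x => (f x - mix J Q x) * (h x - Ex h)) ≤ (V / 2 + Cov h h) / 2 := by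
      have e1 : Ex (fun x => (h x - Ex h) ^ 2) = Cov h h := by
        have e2 : ∀ x, (h x - Ex h) ^ 2 = h x * h x - (2 * Ex h) * h x + Ex h ^ 2 := by
          intro x; ring
        rw [Ex_congr e2, Ex_add, Ex_sub, Ex_mul_left, Ex_const]
        unfold Cov; ring
      have e3 : Ex (fun x => (f x - mix J Q x) * (h x - Ex h)) ≤
          Ex (fun x => (1 / 2 : ℝ) * ((f x - mix J Q x) ^ 2 + (h x - Ex h) ^ 2)) := by
        refine Ex_mono fun x => ?_
        nlinarith [sq_nonneg (f x - mix J Q x - (h x - Ex h))]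
      rw [Ex_mul_left, Ex_add, e1] at e3
      linarith
    have hmix := Cov_mix_le Q hJ hQ h d (fc_proj_deg L f d hd) B (abs_proj_le L f B hB) L
      (fun x y hxy => proj_congr L f x y hxy) k hC θ hθ.le (fun l hl => hLload l hl)
    have hlow := Cov_low (avg C J Q) h c q hq hR M
      (fun l => (Real.sqrt_le_sqrt (Inf_proj_le L f l)).trans (hM l))
    have h2 := (le_abs_self _).trans hmix
    have h3 := (le_abs_self _).trans hlow
    have h4 : (L.card : ℝ) * M ^ 2 ≤ k * Λ * M ^ 2 / θ := by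
      rw [le_div_iff₀ hθ]
      calc (L.card : ℝ) * M ^ 2 * θ = (L.card * θ) * M ^ 2 := by ring
        _ ≤ (k * Λ) * M ^ 2 := mul_le_mul_of_nonneg_right hLcard (sq_nonneg _)
    have h5 : (2 * k * Λ * M ^ 2) / θ = 2 * (k * Λ * M ^ 2 / θ) := by ring
    rw [h5]
    rw [← hK] at h3
    nlinarith
  have hfin := opt_theta (by positivity) (by positivity) key
  refine hfin.trans ?_
  have e1 : (16 * (k : ℝ) * (d : ℝ) ^ 2 * B) * (2 * k * Λ * M ^ 2)
      = (k * d * M) ^ 2 * (32 * (Λ * B)) := by ring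
  have hkdM : 0 ≤ (k : ℝ) * d * M := by positivity
  rw [e1, Real.sqrt_mul (sq_nonneg _), Real.sqrt_sq hkdM, Real.sqrt_mul (by norm_num : (0:ℝ) ≤ 32)]
  have h32 : Real.sqrt 32 ≤ 6 := by
    rw [Real.sqrt_le_left (by norm_num)]; norm_num
  have hs0 : 0 ≤ Real.sqrt (Λ * B) := Real.sqrt_nonneg _
  have : 2 * (k * d * M * (Real.sqrt 32 * Real.sqrt (Λ * B))) ≤
      12 * k * d * Real.sqrt (Λ * B) * M := by
    have h6 : k * d * M * (Real.sqrt 32 * Real.sqrt (Λ * B)) ≤ k * d * M * (6 * Real.sqrt (Λ * B)) :=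
      mul_le_mul_of_nonneg_left (mul_le_mul_of_nonneg_right h32 hs0) hkdM
    linarith
  linarith

/-- Form for functions `Q` of degree at most `r`. -/
theorem strong_mix_deg (d : ℕ) (f : (ι → ℤˣ) → ℝ) (hd : ∀ S : Finset ι, d < S.card → fc f S = 0)
    (B : ℝ) (hB : ∀ x, |f x| ≤ B) (k r : ℕ) (C : κ → Finset ι) (hC : ∀ a, (C a).card ≤ k)
    (J Q : κ → (ι → ℤˣ) → ℝ) (hJ : ∀ a x y, (∀ i ∈ C a, x i = y i) → J a x = J a y)
    (hQ : ∀ a x, |Q a x| ≤ 1) (hr : ∀ a, ∀ S : Finset ι, r < S.card → fc (Q a) S = 0)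
    (hclose : Ex (fun x => (f x - mix J Q x) ^ 2) ≤ Cov f f / 2)
    (M : ℝ) (hM : ∀ l, Real.sqrt (Inf f l) ≤ M) (hM0 : 0 ≤ M) :
    Cov f f ≤ (12 * k * d * Real.sqrt ((∑ a, Ex (fun x => |J a x|)) * B)
      + 8 * (r : ℝ) ^ 2 * 3 ^ r * ∑ a, Ex (fun x => |J a x|)) * M := by
  obtain ⟨q, hq, hR, hsum⟩ := low_decomp r (avg C J Q) (fun S hS => fc_avg Q r hr S hS)
    (∑ a, Ex (fun x => |J a x|)) (abs_avg_le Q hQ)
  refine (strong_mix d f hd B hB k C hC J Q hJ hQ hclose _ q hq hR M hM hM0).trans ?_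
  refine mul_le_mul_of_nonneg_right ?_ hM0
  linarith

end Pool.Agent.H746R2.AA
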