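import Pool.Agent.H746R2.AA.Strong

/-!
# The Aaronson-Ambainis inequality for `L¹` mixtures
-/

set_option autoImplicit false
set_option linter.unusedSectionVars false

namespace Pool.Agent.H746R2.AA

open Finset Polynomial Pool.Agent.H722R2.AA

variable {ι : Type*} [Fintype ι] [DecidableEq ι] {κ : Type*} [DecidableEq κ] [Fintype κ]

/-! ### `L²` norms -/

/-- `L²` norm -/
noncomputable def nrm (g : (ι → ℤˣ) → ℝ) : ℝ := Real.sqrt (Ex (fun x => g x ^ 2))

lemma nrm_nonneg (g : (ι → ℤˣ) → ℝ) : 0 ≤ nrm g := Real.sqrt_nonneg _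

lemma nrm_sq (g : (ι → ℤˣ) → ℝ) : nrm g ^ 2 = Ex (fun x => g x ^ 2) :=
  Real.sq_sqrt (Ex_nonneg fun _ => sq_nonneg _)

lemma nrm_sum_le {I : Type*} (T : Finset I) (g : I → (ι → ℤˣ) → ℝ) :
    nrm (fun x => ∑ i ∈ T, g i x) ≤ ∑ i ∈ T, nrm (g i) := by
  have h0 : 0 ≤ ∑ i ∈ T, nrm (g i) := Finset.sum_nonneg fun i _ => nrm_nonneg _
  refine Real.sqrt_le_iff.2 ⟨h0, ?_⟩
  have e1 : ∀ x, (∑ i ∈ T, g i x) ^ 2 = ∑ i ∈ T, ∑ j ∈ T, g i x * g j x := by
    intro x; rw [sq, Finset.sum_mul_sum]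
  rw [Ex_congr e1, Ex_sum, sq, Finset.sum_mul_sum]
  refine Finset.sum_le_sum fun i _ => ?_
  rw [Ex_sum]
  refine Finset.sum_le_sum fun j _ => ?_
  exact (le_abs_self _).trans (abs_Ex_mul_le (g i) (g j))

lemma nrm_mul_left (c : ℝ) (hc : 0 ≤ c) (g : (ι → ℤˣ) → ℝ) : nrm (fun x => c * g x) = c * nrm g := by
  unfold nrm
  have e : ∀ x, (c * g x) ^ 2 = c ^ 2 * g x ^ 2 := fun x => by ring
  rw [Ex_congr e, Ex_mul_left, Real.sqrt_mul (sq_nonneg c), Real.sqrt_sq hc]

lemma nrm_Ex_le (G : (ι → ℤˣ) → (ι → ℤˣ) → ℝ) :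
    nrm (fun y => Ex (fun z => G z y)) ≤ Ex (fun z => nrm (G z)) := by
  have e1 : (fun y => Ex (fun z => G z y)) = fun y => ((2 : ℝ) ^ Fintype.card ι)⁻¹ * ∑ z, G z y := by
    funext y
    unfold Ex
    rw [div_eq_mul_inv, mul_comm]
  rw [e1, nrm_mul_left _ (by positivity)]
  refine (mul_le_mul_of_nonneg_left (nrm_sum_le Finset.univ G) (by positivity)).trans_eq ?_
  unfold Ex
  rw [div_eq_mul_inv, mul_comm]

/-! ### Derivatives of bounded functions of low degree -/

lemma sum_abs_D_le (d : ℕ) (h : (ι → ℤˣ) → ℝ) (hd : ∀ S : Finset ι, d < S.card → fc h S = 0)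
    (B : ℝ) (hB : ∀ x, |h x| ≤ B) (x : ι → ℤˣ) : ∑ l, |D h l x| ≤ 2 * (d : ℝ) ^ 2 * B := by
  have hm := fun A => markov_pt (fc h) d hd B (fun y hy => by
    obtain ⟨u, rfl⟩ := exists_sg y hy
    rw [ml_fc]; exact hB u) (sg x) (sg_isSgn x) A
  have m1 := hm (Finset.univ.filter fun l => 0 ≤ sg x l * dl (fc h) l (sg x))
  have m2 := hm (Finset.univ.filter fun l => ¬ 0 ≤ sg x l * dl (fc h) l (sg x))
  have e3 : ∀ l, |D h l x| = |sg x l * dl (fc h) l (sg x)| := by
    intro l
    rw [D_eq, abs_mul]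
    have : |sg x l| = 1 := by rcases sg_cases x l with h | h <;> rw [h] <;> norm_num
    rw [this, one_mul]
  simp_rw [e3]
  rw [← Finset.sum_filter_add_sum_filter_not Finset.univ
    (fun l => 0 ≤ sg x l * dl (fc h) l (sg x))]
  rw [Finset.sum_congr rfl (fun l hl => abs_of_nonneg (Finset.mem_filter.1 hl).2),
    Finset.sum_congr (s₁ := Finset.univ.filter fun l => ¬ 0 ≤ sg x l * dl (fc h) l (sg x)) rfl
    (fun l hl => abs_of_neg (not_le.1 (Finset.mem_filter.1 hl).2)),
    Finset.sum_neg_distrib]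
  have n1 := (le_abs_self _).trans m1
  have n2 := (neg_le_abs _).trans m2
  linarith

lemma abs_D_le (h : (ι → ℤˣ) → ℝ) (B : ℝ) (hB : ∀ x, |h x| ≤ B) (l : ι) (x : ι → ℤˣ) :
    |D h l x| ≤ B := by
  unfold D
  rw [abs_div, abs_two, div_le_iff₀ (by norm_num : (0:ℝ) < 2)]
  have h1 := hB (Function.update x l 1)
  have h2 := hB (Function.update x l (-1))
  have h3 := abs_sub (h (Function.update x l 1)) (h (Function.update x l (-1)))
  linarith

/-! ### Decomposition of a function of degree `r` -/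

lemma low_decomp2 (r : ℕ) (R : (ι → ℤˣ) → ℝ) (hr : ∀ S : Finset ι, r < S.card → fc R S = 0) :
    ∃ q : ι → (ι → ℤˣ) → ℝ, (∀ l x u, q l (Function.update x l u) = q l x) ∧
      (∀ x, R x = fc R ∅ + ∑ l, sg x l * q l x) ∧
      ∑ l, Ex (fun x => q l x ^ 2) ≤ Ex (fun x => R x ^ 2) ∧
      (∀ l, Ex (fun x => q l x ^ 4) ≤ 9 ^ r * Ex (fun x => q l x ^ 2) ^ 2) := by
  classical
  have hN : (2 : ℝ) ^ Fintype.card ι ≠ 0 := pow_pos'.ne'
  let c' : Finset ι → ℝ := fun S => fc R S / S.card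
  refine ⟨fun l x => dl c' l (sg x), ?_, ?_, ?_, ?_⟩
  · intro l x u
    unfold dl
    refine Finset.sum_congr rfl fun S _ => ?_
    split_ifs with h
    · rw [sg_update, prod_update_notMem _ _ (Finset.notMem_erase l S)]
    · rfl
  · intro x
    have h1 : ∀ e, sg x e * dl c' e (sg x) = ∑ S : Finset ι, if e ∈ S then c' S * ∏ e ∈ S, sg x e else 0 := by
      intro e
      unfold dl
      rw [Finset.mul_sum]
      refine Finset.sum_congr rfl fun S _ => ?_
      split_ifs with h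
      · rw [← Finset.mul_prod_erase S _ h]; ring
      · simp
    simp only [h1]
    rw [Finset.sum_comm]
    have h2 : ∀ S : Finset ι, (∑ e : ι, if e ∈ S then c' S * ∏ e ∈ S, sg x e else 0)
        = if S = ∅ then 0 else fc R S * ∏ e ∈ S, sg x e := by
      intro S
      rw [Finset.sum_ite_mem, Finset.univ_inter, Finset.sum_const, nsmul_eq_mul]
      split_ifs with h
      · simp [h]
      · have : (S.card : ℝ) ≠ 0 := by
          rw [Nat.cast_ne_zero]
          exact (Finset.card_pos.2 (Finset.nonempty_iff_ne_empty.2 h)).ne'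
        simp only [c']
        field_simp
    rw [Finset.sum_congr rfl (fun S _ => h2 S)]
    conv_lhs => rw [← ml_fc R x]
    unfold ml
    rw [← Finset.add_sum_erase Finset.univ _ (Finset.mem_univ ∅),
      ← Finset.add_sum_erase Finset.univ (fun S : Finset ι => if S = ∅ then 0
        else fc R S * ∏ e ∈ S, sg x e) (Finset.mem_univ ∅)]
    simp only [Finset.prod_empty, mul_one, if_true, zero_add]
    congr 1
    refine Finset.sum_congr rfl fun S hS => ?_
    rw [if_neg (Finset.ne_of_mem_erase hS)]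
  · have : ∀ l, Ex (fun x => (dl c' l (sg x)) ^ 2) = ∑ S : Finset ι, if l ∈ S then c' S ^ 2 else 0 := by
      intro l
      unfold Ex
      rw [sum_dl_sq, mul_div_cancel_left₀ _ hN]
    rw [Finset.sum_congr rfl fun l _ => this l, Finset.sum_comm, parseval_sq]
    refine Finset.sum_le_sum fun S _ => ?_
    rw [Finset.sum_ite_mem, Finset.univ_inter, Finset.sum_const, nsmul_eq_mul]
    rcases Nat.eq_zero_or_pos S.card with h | h
    · rw [h]; simp [sq_nonneg]
    · have h1 : (1 : ℝ) ≤ S.card := by exact_mod_cast h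
      simp only [c', div_pow]
      have h2 : (S.card : ℝ) * (fc R S ^ 2 / (S.card : ℝ) ^ 2) = fc R S ^ 2 / S.card := by
        field_simp
      rw [h2]
      exact div_le_self (sq_nonneg _) h1
  · intro l
    let cl : Finset ι → ℝ := fun S => if l ∈ S then c' S else 0
    have e1 : ∀ x : ι → ℤˣ, dl c' l (sg x) = sg x l * ml cl (sg x) := by
      intro x
      unfold dl ml
      rw [Finset.mul_sum]
      refine Finset.sum_congr rfl fun S _ => ?_
      simp only [cl]
      split_ifs with h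
      · rw [← Finset.mul_prod_erase S _ h]
        have := sg_mul_self x l
        calc c' S * ∏ e ∈ S.erase l, sg x e
            = (sg x l * sg x l) * (c' S * ∏ e ∈ S.erase l, sg x e) := by rw [this, one_mul]
          _ = _ := by ring
      · ring
    have e2 : ∀ x : ι → ℤˣ, (dl c' l (sg x)) ^ 2 = ml cl (sg x) ^ 2 := by
      intro x
      rw [e1, mul_pow, sq (sg x l), sg_mul_self, one_mul]
    have e4 : ∀ x : ι → ℤˣ, (dl c' l (sg x)) ^ 4 = ml cl (sg x) ^ 4 := by
      intro x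
      calc (dl c' l (sg x)) ^ 4 = ((dl c' l (sg x)) ^ 2) ^ 2 := by ring
        _ = _ := by rw [e2]; ring
    rw [Ex_congr e2, Ex_congr e4]
    refine bonami r cl ?_
    intro S hS
    simp only [cl, c']
    split_ifs
    · rw [hr S hS, zero_div]
    · rfl

/-- Covariance formula. -/
lemma Cov_formula (R h : (ι → ℤˣ) → ℝ) (c : ℝ) (q : ι → (ι → ℤˣ) → ℝ)
    (hq : ∀ l x u, q l (Function.update x l u) = q l x)
    (hR : ∀ x, R x = c + ∑ l, sg x l * q l x) :
    Cov R h = Ex (fun x => ∑ l, q l x * D h l x) := by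
  unfold Cov
  have e1 : ∀ x, R x * h x = c * h x + ∑ l, sg x l * q l x * h x := by
    intro x; rw [hR, add_mul, Finset.sum_mul]
  have e2 : Ex R = c := by
    rw [Ex_congr hR, Ex_add (fun _ => c) (fun x => ∑ l, sg x l * q l x), Ex_const, Ex_sum]
    simp only [Ex_sg_zero _ _ (hq _)]
    simp
  rw [Ex_congr e1, Ex_add, Ex_mul_left, e2, Ex_sum, Ex_sum]
  rw [Finset.sum_congr rfl fun l _ => Ex_sg_mul l (q l) h (hq l)]
  ring

/-- Covariance of a function of degree `r` with a bounded function of degree `d` without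
coordinates of large weight. -/
lemma Cov_low_weak (r d : ℕ) (R h : (ι → ℤˣ) → ℝ) (c : ℝ) (q : ι → (ι → ℤˣ) → ℝ)
    (hq : ∀ l x u, q l (Function.update x l u) = q l x)
    (hR : ∀ x, R x = c + ∑ l, sg x l * q l x)
    (hq4 : ∀ l, Ex (fun x => q l x ^ 4) ≤ 9 ^ r * Ex (fun x => q l x ^ 2) ^ 2)
    (W : ℝ) (hW : ∑ l, Ex (fun x => q l x ^ 2) ≤ W)
    (hd : ∀ S : Finset ι, d < S.card → fc h S = 0) (hB : ∀ x, |h x| ≤ 1)
    (L : Finset ι) (hL : ∀ x y : ι → ℤˣ, (∀ i ∉ L, x i = y i) → h x = h y)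
    (s β : ℝ) (hs : 0 ≤ s) (hβ : 0 < β) (hLs : ∀ l ∉ L, Ex (fun x => q l x ^ 2) ≤ s) :
    |Cov R h| ≤ 2 * (d : ℝ) ^ 2 * β + 9 ^ r * s * W / β ^ 3 := by
  classical
  rw [Cov_formula R h c q hq hR]
  refine (abs_Ex_le _).trans ?_
  have hD0 : ∀ l ∈ L, ∀ x, D h l x = 0 := by
    intro l hl x
    unfold D
    rw [hL (Function.update x l 1) (Function.update x l (-1)) ?_, sub_self, zero_div]
    intro i hi
    have : i ≠ l := by rintro rfl; exact hi hl
    rw [Function.update_of_ne this, Function.update_of_ne this]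
  have hpt : ∀ x, |∑ l, q l x * D h l x| ≤
      2 * (d : ℝ) ^ 2 * β + ∑ l, (if l ∈ L then 0 else q l x ^ 4 / β ^ 3) := by
    intro x
    have h1 : |∑ l, q l x * D h l x| ≤ ∑ l, (β * |D h l x| + (if l ∈ L then 0 else q l x ^ 4 / β ^ 3)) := by
      refine (Finset.abs_sum_le_sum_abs _ _).trans (Finset.sum_le_sum fun l _ => ?_)
      split_ifs with hl
      · rw [hD0 l hl]; simp
      · rw [abs_mul]
        have hD1 := abs_D_le h 1 hB l x
        rcases le_or_gt |q l x| β with hle | hgt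
        · have : 0 ≤ q l x ^ 4 / β ^ 3 := by positivity
          nlinarith [mul_le_mul_of_nonneg_right hle (abs_nonneg (D h l x))]
        · have h2 : |q l x| ≤ q l x ^ 4 / β ^ 3 := by
            rw [le_div_iff₀ (by positivity)]
            have h3 : q l x ^ 4 = |q l x| * |q l x| ^ 3 := by
              have h30 : |q l x| * |q l x| ^ 3 = |q l x| ^ 4 := by ring
              rw [h30, ← abs_pow, abs_of_nonneg (by positivity : (0 : ℝ) ≤ q l x ^ 4)]
            rw [h3]
            refine mul_le_mul_of_nonneg_left ?_ (abs_nonneg _)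
            exact pow_le_pow_left₀ hβ.le hgt.le 3
          have h4 : |q l x| * |D h l x| ≤ |q l x| := mul_le_of_le_one_right (abs_nonneg _) hD1
          have h5 : 0 ≤ β * |D h l x| := by positivity
          linarith
    refine h1.trans ?_
    rw [Finset.sum_add_distrib, ← Finset.mul_sum]
    have h6 := sum_abs_D_le d h hd 1 hB x
    have h7 := mul_le_mul_of_nonneg_left h6 hβ.le
    linarith
  refine (Ex_mono hpt).trans ?_
  rw [Ex_add (fun _ => 2 * (d : ℝ) ^ 2 * β)
    (fun x => ∑ l, (if l ∈ L then 0 else q l x ^ 4 / β ^ 3)), Ex_const, Ex_sum]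
  refine add_le_add le_rfl ?_
  have h8 : ∀ l, Ex (fun x => (if l ∈ L then (0 : ℝ) else q l x ^ 4 / β ^ 3)) ≤
      9 ^ r * s / β ^ 3 * Ex (fun x => q l x ^ 2) := by
    intro l
    have hq2 : 0 ≤ Ex (fun x => q l x ^ 2) := Ex_nonneg fun _ => sq_nonneg _
    split_ifs with hl
    · rw [Ex_const]; positivity
    · have e : ∀ x, q l x ^ 4 / β ^ 3 = (1 / β ^ 3) * q l x ^ 4 := fun x => by ring
      rw [Ex_congr e, Ex_mul_left]
      have h9 : Ex (fun x => q l x ^ 4) ≤ 9 ^ r * (s * Ex (fun x => q l x ^ 2)) := by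
        refine (hq4 l).trans (mul_le_mul_of_nonneg_left ?_ (by positivity))
        rw [sq]
        exact mul_le_mul_of_nonneg_right (hLs l hl) hq2
      calc 1 / β ^ 3 * Ex (fun x => q l x ^ 4)
          ≤ 1 / β ^ 3 * (9 ^ r * (s * Ex (fun x => q l x ^ 2))) :=
            mul_le_mul_of_nonneg_left h9 (by positivity)
        _ = _ := by ring
  calc ∑ l, Ex (fun x => (if l ∈ L then (0 : ℝ) else q l x ^ 4 / β ^ 3))
      ≤ ∑ l, 9 ^ r * s / β ^ 3 * Ex (fun x => q l x ^ 2) := Finset.sum_le_sum fun l _ => h8 l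
    _ = 9 ^ r * s / β ^ 3 * ∑ l, Ex (fun x => q l x ^ 2) := by rw [Finset.mul_sum]
    _ ≤ 9 ^ r * s / β ^ 3 * W := mul_le_mul_of_nonneg_left hW (by positivity)
    _ = _ := by ring

end Pool.Agent.H746R2.AA
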