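import Pool.Agent.H746R2.AA.Weak

/-!
# The Aaronson-Ambainis inequality for `L¹` mixtures, final assembly
-/

set_option autoImplicit false
set_option linter.unusedSectionVars false

namespace Pool.Agent.H746R2.AA

open Finset Polynomial Pool.Agent.H722R2.AA

variable {ι : Type*} [Fintype ι] [DecidableEq ι] {κ : Type*} [DecidableEq κ] [Fintype κ]

section

variable {C : κ → Finset ι} {J : κ → (ι → ℤˣ) → ℝ} (Q : κ → (ι → ℤˣ) → ℝ)

/-- the weight of `a` at the base point `y` -/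
noncomputable def wt (C : κ → Finset ι) (J : κ → (ι → ℤˣ) → ℝ) (a : κ) (y : ι → ℤˣ) : ℝ :=
  Ex (fun z => |J a z * Q a ((C a).piecewise z y)|)

/-- the load of the coordinate `l` at the base point `y` -/
noncomputable def load (C : κ → Finset ι) (J : κ → (ι → ℤˣ) → ℝ) (l : ι) (y : ι → ℤˣ) : ℝ :=
  ∑ a ∈ Finset.univ.filter (fun a => l ∈ C a), wt Q C J a y

/-- the mean load -/
noncomputable def mload (C : κ → Finset ι) (J : κ → (ι → ℤˣ) → ℝ) (l : ι) : ℝ :=
  ∑ a ∈ Finset.univ.filter (fun a => l ∈ C a), Ex (fun x => |J a x * Q a x|)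

lemma wt_nonneg (a : κ) (y : ι → ℤˣ) : 0 ≤ wt Q C J a y := Ex_nonneg fun _ => abs_nonneg _

lemma load_nonneg (l : ι) (y : ι → ℤˣ) : 0 ≤ load Q C J l y :=
  Finset.sum_nonneg fun _ _ => wt_nonneg Q _ _

lemma Ex_wt (hJ : ∀ a x y, (∀ i ∈ C a, x i = y i) → J a x = J a y) (a : κ) :
    Ex (wt Q C J a) = Ex (fun x => |J a x * Q a x|) := by
  rw [Ex_overlay (C a) (fun x => |J a x * Q a x|), Ex_comm]
  refine Ex_congr fun y => Ex_congr fun z => ?_
  rw [hJ a ((C a).piecewise z y) z fun i hi => Finset.piecewise_eq_of_mem _ _ _ hi]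

lemma nrm_wt_le (r : ℕ) (hr : ∀ a, ∀ S : Finset ι, r < S.card → fc (Q a) S = 0)
    (a : κ) : nrm (wt Q C J a) ≤ 3 ^ r * Ex (wt Q C J a) := by
  have h1 : nrm (wt Q C J a) ≤
      Ex (fun z => nrm (fun y => |J a z * Q a ((C a).piecewise z y)|)) := nrm_Ex_le _
  refine h1.trans ?_
  have h2 : Ex (wt Q C J a) = Ex (fun z => Ex (fun y => |J a z * Q a ((C a).piecewise z y)|)) := by
    unfold wt
    rw [Ex_comm]
  rw [h2, ← Ex_mul_left]
  refine Ex_mono fun z => ?_
  have h3 := l2_le_l1 r (fun y => J a z * Q a ((C a).piecewise z y)) ?_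
  · unfold nrm
    simp only [sq_abs]
    exact h3
  · intro S hS
    have := fc_overlay (Q a) r (hr a) (C a) z S hS
    rw [fc_eq_Ex] at this ⊢
    have e : ∀ x : ι → ℤˣ, J a z * Q a ((C a).piecewise z x) * ∏ i ∈ S, sg x i
        = J a z * (Q a ((C a).piecewise z x) * ∏ i ∈ S, sg x i) := fun x => by ring
    rw [Ex_congr e, Ex_mul_left, this, mul_zero]

lemma Ex_load_sq (hJ : ∀ a x y, (∀ i ∈ C a, x i = y i) → J a x = J a y) (r : ℕ)
    (hr : ∀ a, ∀ S : Finset ι, r < S.card → fc (Q a) S = 0) (l : ι) :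
    Ex (fun y => load Q C J l y ^ 2) ≤ 9 ^ r * mload Q C J l ^ 2 := by
  have h1 : nrm (load Q C J l) ≤ 3 ^ r * mload Q C J l := by
    have h2 : nrm (fun y => ∑ a ∈ Finset.univ.filter (fun a => l ∈ C a), wt Q C J a y) ≤ _ :=
      nrm_sum_le _ _
    refine h2.trans ?_
    unfold mload
    rw [Finset.mul_sum]
    refine Finset.sum_le_sum fun a _ => ?_
    rw [← Ex_wt Q hJ]
    exact nrm_wt_le Q r hr a
  rw [← nrm_sq (load Q C J l)]
  calc nrm (load Q C J l) ^ 2 ≤ (3 ^ r * mload Q C J l) ^ 2 :=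
        pow_le_pow_left₀ (nrm_nonneg _) h1 2
    _ = 9 ^ r * mload Q C J l ^ 2 := by
        rw [mul_pow, ← pow_mul, mul_comm r 2, pow_mul]; norm_num

lemma sum_mload_le (k : ℕ) (hC : ∀ a, (C a).card ≤ k) :
    ∑ l, mload Q C J l ≤ k * ∑ a, Ex (fun x => |J a x * Q a x|) := by
  unfold mload
  simp only [Finset.sum_filter]
  rw [Finset.sum_comm, Finset.mul_sum]
  refine Finset.sum_le_sum fun a _ => ?_
  rw [Finset.sum_ite_mem, Finset.univ_inter, Finset.sum_const, nsmul_eq_mul]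
  exact mul_le_mul_of_nonneg_right (by exact_mod_cast hC a) (Ex_nonneg fun _ => abs_nonneg _)

/-- The planting estimate. -/
lemma Cov_mix_weak (hJ : ∀ a x y, (∀ i ∈ C a, x i = y i) → J a x = J a y) (r : ℕ)
    (hr : ∀ a, ∀ S : Finset ι, r < S.card → fc (Q a) S = 0) (h : (ι → ℤˣ) → ℝ) (d : ℕ)
    (hd : ∀ S : Finset ι, d < S.card → fc h S = 0) (hB : ∀ x, |h x| ≤ 1) (L : Finset ι)
    (hL : ∀ x y : ι → ℤˣ, (∀ i ∉ L, x i = y i) → h x = h y)
    (k : ℕ) (hC : ∀ a, (C a).card ≤ k) (θ τ : ℝ) (hθ : 0 ≤ θ) (hτ : 0 < τ)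
    (hload : ∀ l ∉ L, mload Q C J l ≤ θ) :
    |Cov (mix J Q) h - Cov (avg C J Q) h| ≤ 4 * k * (d : ℝ) ^ 2 * τ
      + 2 * 9 ^ r * θ * k * (∑ a, Ex (fun x => |J a x * Q a x|)) / τ := by
  classical
  rw [Cov_mix_sub Q hJ]
  refine (abs_Ex_le _).trans ?_
  have hpt : ∀ y, |∑ a, Ex (fun z => J a z * (Q a ((C a).piecewise z y) *
        (h ((C a).piecewise z y) - h y)))| ≤
      4 * k * (d : ℝ) ^ 2 * τ + ∑ l, (if l ∈ L then 0 else 2 / τ * load Q C J l y ^ 2) := by
    intro y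
    have hmax : ∀ a, ∃ z : ι → ℤˣ, ∀ z', |h ((C a).piecewise z' y) - h y| ≤
        |h ((C a).piecewise z y) - h y| := fun a =>
      Finite.exists_max fun z' => |h ((C a).piecewise z' y) - h y|
    choose zm hzm using hmax
    have h1 : |∑ a, Ex (fun z => J a z * (Q a ((C a).piecewise z y) *
          (h ((C a).piecewise z y) - h y)))|
        ≤ ∑ a, wt Q C J a y * |h ((C a).piecewise (zm a) y) - h y| := by
      refine (Finset.abs_sum_le_sum_abs _ _).trans (Finset.sum_le_sum fun a _ => ?_)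
      refine (abs_Ex_le _).trans ?_
      unfold wt
      rw [← Ex_mul_right]
      refine Ex_mono fun z => ?_
      rw [← mul_assoc, abs_mul]
      exact mul_le_mul_of_nonneg_left (hzm a z) (abs_nonneg _)
    refine h1.trans ?_
    -- overloaded coordinates
    let O : Finset ι := Finset.univ.filter fun l => l ∉ L ∧ τ < load Q C J l y
    let T : Finset κ := Finset.univ.filter fun a => Disjoint (C a) O
    have hsplit : ∑ a, wt Q C J a y * |h ((C a).piecewise (zm a) y) - h y|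
        = ∑ a ∈ T, wt Q C J a y * |h ((C a).piecewise (zm a) y) - h y|
          + ∑ a ∈ Finset.univ.filter (fun a => ¬ Disjoint (C a) O),
            wt Q C J a y * |h ((C a).piecewise (zm a) y) - h y| :=
      (Finset.sum_filter_add_sum_filter_not Finset.univ _ _).symm
    have hgood : ∑ a ∈ T, wt Q C J a y * |h ((C a).piecewise (zm a) y) - h y|
        ≤ k * τ * (4 * (d : ℝ) ^ 2 * 1) := by
      refine load_bound h d hd 1 hB L hL T k C (fun a _ => hC a) (fun a => wt Q C J a y)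
        (fun a => wt_nonneg Q a y) τ hτ.le ?_ y zm
      intro a ha l hl hlL
      have hlO : l ∉ O := Finset.disjoint_left.1 (Finset.mem_filter.1 ha).2 hl
      have h2 : load Q C J l y ≤ τ := by
        by_contra hcon
        exact hlO (Finset.mem_filter.2 ⟨Finset.mem_univ _, hlL, not_le.1 hcon⟩)
      refine le_trans ?_ h2
      unfold load
      refine Finset.sum_le_sum_of_subset_of_nonneg ?_ (fun _ _ _ => wt_nonneg Q _ _)
      exact Finset.filter_subset_filter _ (Finset.subset_univ _)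
    have hbad : ∑ a ∈ Finset.univ.filter (fun a => ¬ Disjoint (C a) O),
            wt Q C J a y * |h ((C a).piecewise (zm a) y) - h y|
        ≤ ∑ l, (if l ∈ L then 0 else 2 / τ * load Q C J l y ^ 2) := by
      have h2 : ∀ a, |h ((C a).piecewise (zm a) y) - h y| ≤ 2 := by
        intro a
        have := abs_sub (h ((C a).piecewise (zm a) y)) (h y)
        have := hB ((C a).piecewise (zm a) y)
        have := hB y
        linarith
      have h3 : ∑ a ∈ Finset.univ.filter (fun a => ¬ Disjoint (C a) O),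
            wt Q C J a y * |h ((C a).piecewise (zm a) y) - h y|
          ≤ ∑ a ∈ Finset.univ.filter (fun a => ¬ Disjoint (C a) O), 2 * wt Q C J a y := by
        refine Finset.sum_le_sum fun a _ => ?_
        rw [mul_comm]
        exact mul_le_mul_of_nonneg_right (h2 a) (wt_nonneg Q a y)
      refine h3.trans ?_
      have h4 : Finset.univ.filter (fun a => ¬ Disjoint (C a) O) ⊆
          O.biUnion fun l => Finset.univ.filter fun a => l ∈ C a := by
        intro a ha
        have h5 := (Finset.mem_filter.1 ha).2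
        rw [Finset.not_disjoint_iff] at h5
        obtain ⟨l, hl1, hl2⟩ := h5
        exact Finset.mem_biUnion.2 ⟨l, hl2, Finset.mem_filter.2 ⟨Finset.mem_univ _, hl1⟩⟩
      refine (Finset.sum_le_sum_of_subset_of_nonneg h4
        (fun _ _ _ => mul_nonneg (by norm_num) (wt_nonneg Q _ _))).trans ?_
      refine (sum_biUnion_le' O _ (fun a => 2 * wt Q C J a y)
        (fun a => mul_nonneg (by norm_num) (wt_nonneg Q _ _))).trans ?_
      have h6 : ∑ l, (if l ∈ L then 0 else 2 / τ * load Q C J l y ^ 2)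
          ≥ ∑ l ∈ O, (if l ∈ L then 0 else 2 / τ * load Q C J l y ^ 2) := by
        refine Finset.sum_le_sum_of_subset_of_nonneg (Finset.subset_univ _) ?_
        intro l _ _
        split_ifs
        · exact le_rfl
        · positivity
      refine le_trans ?_ h6
      refine Finset.sum_le_sum fun l hl => ?_
      obtain ⟨_, hlL, hlτ⟩ := Finset.mem_filter.1 hl
      rw [if_neg hlL, ← Finset.mul_sum]
      change 2 * load Q C J l y ≤ _
      rw [div_mul_eq_mul_div, le_div_iff₀ hτ]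
      have h7 : load Q C J l y * τ ≤ load Q C J l y * load Q C J l y :=
        mul_le_mul_of_nonneg_left hlτ.le (load_nonneg Q l y)
      nlinarith
    rw [hsplit]
    have h8 : (k : ℝ) * τ * (4 * (d : ℝ) ^ 2 * 1) = 4 * k * (d : ℝ) ^ 2 * τ := by ring
    rw [h8] at hgood
    exact add_le_add hgood hbad
  refine (Ex_mono hpt).trans ?_
  rw [Ex_add (fun _ => 4 * k * (d : ℝ) ^ 2 * τ)
    (fun y => ∑ l, (if l ∈ L then 0 else 2 / τ * load Q C J l y ^ 2)), Ex_const, Ex_sum]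
  refine add_le_add le_rfl ?_
  have hm0 : ∀ l, 0 ≤ mload Q C J l := fun l =>
    Finset.sum_nonneg fun _ _ => Ex_nonneg fun _ => abs_nonneg _
  have h9 : ∀ l, Ex (fun y => (if l ∈ L then (0 : ℝ) else 2 / τ * load Q C J l y ^ 2)) ≤
      2 / τ * (9 ^ r * (θ * mload Q C J l)) := by
    intro l
    split_ifs with hl
    · rw [Ex_const]
      have := hm0 l
      positivity
    · rw [Ex_mul_left]
      refine mul_le_mul_of_nonneg_left ?_ (by positivity)
      refine (Ex_load_sq Q hJ r hr l).trans ?_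
      refine mul_le_mul_of_nonneg_left ?_ (by positivity)
      rw [sq]
      exact mul_le_mul_of_nonneg_right (hload l hl) (hm0 l)
  calc ∑ l, Ex (fun y => (if l ∈ L then (0 : ℝ) else 2 / τ * load Q C J l y ^ 2))
      ≤ ∑ l, 2 / τ * (9 ^ r * (θ * mload Q C J l)) := Finset.sum_le_sum fun l _ => h9 l
    _ = 2 / τ * 9 ^ r * θ * ∑ l, mload Q C J l := by
        rw [Finset.mul_sum]
        exact Finset.sum_congr rfl fun l _ => by ring
    _ ≤ 2 / τ * 9 ^ r * θ * (k * ∑ a, Ex (fun x => |J a x * Q a x|)) :=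
        mul_le_mul_of_nonneg_left (sum_mload_le Q k hC) (by positivity)
    _ = _ := by ring

lemma Ex_abs_avg_le (hJ : ∀ a x y, (∀ i ∈ C a, x i = y i) → J a x = J a y) :
    Ex (fun y => |avg C J Q y|) ≤ ∑ a, Ex (fun x => |J a x * Q a x|) := by
  have h1 : ∀ y, |avg C J Q y| ≤ ∑ a, wt Q C J a y := by
    intro y
    unfold avg
    exact (Finset.abs_sum_le_sum_abs _ _).trans (Finset.sum_le_sum fun a _ => abs_Ex_le _)
  refine (Ex_mono h1).trans ?_
  rw [Ex_sum]
  exact Finset.sum_le_sum fun a _ => (Ex_wt Q hJ a).le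

end

/-- All parameters free. -/
theorem weak_mix_param (d : ℕ) (f : (ι → ℤˣ) → ℝ) (hd : ∀ S : Finset ι, d < S.card → fc f S = 0)
    (hB : ∀ x, |f x| ≤ 1) (k r : ℕ) (C : κ → Finset ι) (hC : ∀ a, (C a).card ≤ k)
    (J Q : κ → (ι → ℤˣ) → ℝ) (hJ : ∀ a x y, (∀ i ∈ C a, x i = y i) → J a x = J a y)
    (hr : ∀ a, ∀ S : Finset ι, r < S.card → fc (Q a) S = 0)
    (hclose : Ex (fun x => (f x - mix J Q x) ^ 2) ≤ Cov f f / 4)
    (Λ : ℝ) (hΛ : ∑ a, Ex (fun x => |J a x * Q a x|) ≤ Λ)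
    (M2 : ℝ) (hM : ∀ l, Inf f l ≤ M2) (hM0 : 0 ≤ M2)
    (τ θ β s : ℝ) (hτ : 0 < τ) (hθ : 0 < θ) (hβ : 0 < β) (hs : 0 < s) :
    3 / 4 * Cov f f ≤ 2 * (4 * k * (d : ℝ) ^ 2 * τ + 2 * 9 ^ r * θ * k * Λ / τ
      + 2 * (d : ℝ) ^ 2 * β + 9 ^ r * s * (9 ^ r * Λ ^ 2) / β ^ 3)
      + (k * Λ / θ + 9 ^ r * Λ ^ 2 / s) * M2 := by
  classical
  obtain ⟨q, hq, hR, hq2, hq4⟩ := low_decomp2 r (avg C J Q) (fun S hS => fc_avg Q r hr S hS)
  have hw0 : ∀ a, 0 ≤ Ex (fun x => |J a x * Q a x|) := fun a => Ex_nonneg fun _ => abs_nonneg _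
  have hΛ0 : 0 ≤ Λ := (Finset.sum_nonneg fun a _ => hw0 a).trans hΛ
  have hW : ∑ l, Ex (fun x => q l x ^ 2) ≤ 9 ^ r * Λ ^ 2 := by
    refine hq2.trans ?_
    have h1 := l2_le_l1 r (avg C J Q) (fun S hS => fc_avg Q r hr S hS)
    have h2 : Real.sqrt (Ex (fun x => avg C J Q x ^ 2)) ≤ 3 ^ r * Λ :=
      h1.trans (mul_le_mul_of_nonneg_left ((Ex_abs_avg_le Q hJ).trans hΛ) (by positivity))
    have h3 : 0 ≤ Ex (fun x => avg C J Q x ^ 2) := Ex_nonneg fun _ => sq_nonneg _
    rw [← Real.sq_sqrt h3]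
    calc Real.sqrt (Ex (fun x => avg C J Q x ^ 2)) ^ 2 ≤ (3 ^ r * Λ) ^ 2 :=
          pow_le_pow_left₀ (Real.sqrt_nonneg _) h2 2
      _ = 9 ^ r * Λ ^ 2 := by rw [mul_pow, ← pow_mul, mul_comm r 2, pow_mul]; norm_num
  have hqn : ∀ l, 0 ≤ Ex (fun x => q l x ^ 2) := fun l => Ex_nonneg fun _ => sq_nonneg _
  have hm0 : ∀ l, 0 ≤ mload Q C J l := fun l =>
    Finset.sum_nonneg fun _ _ => Ex_nonneg fun _ => abs_nonneg _
  let L1 : Finset ι := Finset.univ.filter fun l => θ < mload Q C J l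
  let L2 : Finset ι := Finset.univ.filter fun l => s < Ex (fun x => q l x ^ 2)
  let L := L1 ∪ L2
  have hL1 : ∀ l ∉ L, mload Q C J l ≤ θ := by
    intro l hl
    by_contra hcon
    exact hl (Finset.mem_union_left _ (Finset.mem_filter.2 ⟨Finset.mem_univ _, not_le.1 hcon⟩))
  have hL2 : ∀ l ∉ L, Ex (fun x => q l x ^ 2) ≤ s := by
    intro l hl
    by_contra hcon
    exact hl (Finset.mem_union_right _ (Finset.mem_filter.2 ⟨Finset.mem_univ _, not_le.1 hcon⟩))
  have hc1 : (L1.card : ℝ) ≤ k * Λ / θ := by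
    rw [le_div_iff₀ hθ]
    have h1 : (L1.card : ℝ) * θ ≤ ∑ l ∈ L1, mload Q C J l := by
      rw [← nsmul_eq_mul]
      exact Finset.card_nsmul_le_sum _ _ _ fun l hl => (Finset.mem_filter.1 hl).2.le
    have h2 : ∑ l ∈ L1, mload Q C J l ≤ ∑ l, mload Q C J l :=
      Finset.sum_le_sum_of_subset_of_nonneg (Finset.subset_univ _) fun l _ _ => hm0 l
    have h3 := sum_mload_le Q (J := J) k hC
    have h4 : (k : ℝ) * ∑ a, Ex (fun x => |J a x * Q a x|) ≤ k * Λ :=
      mul_le_mul_of_nonneg_left hΛ (by positivity)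
    linarith
  have hc2 : (L2.card : ℝ) ≤ 9 ^ r * Λ ^ 2 / s := by
    rw [le_div_iff₀ hs]
    have h1 : (L2.card : ℝ) * s ≤ ∑ l ∈ L2, Ex (fun x => q l x ^ 2) := by
      rw [← nsmul_eq_mul]
      exact Finset.card_nsmul_le_sum _ _ _ fun l hl => (Finset.mem_filter.1 hl).2.le
    have h2 : ∑ l ∈ L2, Ex (fun x => q l x ^ 2) ≤ ∑ l, Ex (fun x => q l x ^ 2) :=
      Finset.sum_le_sum_of_subset_of_nonneg (Finset.subset_univ _) fun l _ _ => hqn l
    linarith
  have hcard : (L.card : ℝ) ≤ k * Λ / θ + 9 ^ r * Λ ^ 2 / s := by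
    have : (L.card : ℝ) ≤ L1.card + L2.card := by
      exact_mod_cast Finset.card_union_le L1 L2
    linarith
  let h := proj L f
  have hVh : Cov f f ≤ Cov h h + L.card * M2 := by
    refine (var_le_proj L f).trans ?_
    refine add_le_add le_rfl ?_
    rw [← nsmul_eq_mul]
    exact Finset.sum_le_card_nsmul _ _ _ fun l _ => hM l
  have h1 : Cov h h = Cov f h := (Cov_proj L f).symm
  have hsplit : Cov f h = (Cov (mix J Q) h - Cov (avg C J Q) h) + Cov (avg C J Q) h
      + Ex (fun x => (f x - mix J Q x) * (h x - Ex h)) := by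
    have e1 : Ex (fun x => (f x - mix J Q x) * (h x - Ex h))
        = Cov f h - Cov (mix J Q) h := by
      have e2 : ∀ x, (f x - mix J Q x) * (h x - Ex h)
          = (f x * h x - mix J Q x * h x) - (f x * Ex h - mix J Q x * Ex h) := by
        intro x; ring
      rw [Ex_congr e2, Ex_sub, Ex_sub, Ex_sub, Ex_mul_right, Ex_mul_right]
      unfold Cov; ring
    rw [e1]; ring
  have hcs : Ex (fun x => (f x - mix J Q x) * (h x - Ex h)) ≤ (Cov f f / 4 + Cov h h) / 2 := by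
    have e1 : Ex (fun x => (h x - Ex h) ^ 2) = Cov h h := by
      have e2 : ∀ x, (h x - Ex h) ^ 2 = h x * h x - (2 * Ex h) * h x + Ex h ^ 2 := by
        intro x; ring
      rw [Ex_congr e2, Ex_add, Ex_sub, Ex_mul_left, Ex_const]
      unfold Cov; ring
    have e3 : Ex (fun x => (f x - mix J Q x) * (h x - Ex h)) ≤
        Ex (fun x => (1 / 2 : ℝ) * ((f x - mix J Q x) ^ 2 + (h x - Ex h) ^ 2)) := by
      refine Ex_mono fun x => ?_
      nlinarith [sq_nonneg (f x - mix J Q x - (h x - Ex h))]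
    rw [Ex_mul_left, Ex_add, e1] at e3
    linarith
  have hmix := Cov_mix_weak Q hJ r hr h d (fc_proj_deg L f d hd) (abs_proj_le L f 1 hB) L
    (fun x y hxy => proj_congr L f x y hxy) k hC θ τ hθ.le hτ hL1
  have hlow := Cov_low_weak r d (avg C J Q) h _ q hq hR hq4 _ hW (fc_proj_deg L f d hd)
    (abs_proj_le L f 1 hB) L (fun x y hxy => proj_congr L f x y hxy) s β hs.le hβ hL2
  have h2 := (le_abs_self _).trans hmix
  have h3 := (le_abs_self _).trans hlow
  have h4 : 2 * 9 ^ r * θ * k * (∑ a, Ex (fun x => |J a x * Q a x|)) / τ ≤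
      2 * 9 ^ r * θ * k * Λ / τ := by
    refine div_le_div_of_nonneg_right ?_ hτ.le
    exact mul_le_mul_of_nonneg_left hΛ (by positivity)
  have h5 : (L.card : ℝ) * M2 ≤ (k * Λ / θ + 9 ^ r * Λ ^ 2 / s) * M2 :=
    mul_le_mul_of_nonneg_right hcard hM0
  linarith

end Pool.Agent.H746R2.AA
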