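import Pool.Agent.H746R2.AA.Weak2

/-!
# The Aaronson-Ambainis inequality for `L¹` mixtures, choice of the parameters
-/

set_option autoImplicit false
set_option linter.unusedSectionVars false

namespace Pool.Agent.H746R2.AA

open Finset Polynomial Pool.Agent.H722R2.AA

variable {ι : Type*} [Fintype ι] [DecidableEq ι] {κ : Type*} [DecidableEq κ] [Fintype κ]

lemma Cov_self_le (f : (ι → ℤˣ) → ℝ) (B : ℝ) (hB : ∀ x, |f x| ≤ B) : Cov f f ≤ B ^ 2 := by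
  unfold Cov
  have h1 : Ex (fun x => f x * f x) ≤ B ^ 2 := by
    refine Ex_le_const fun x => ?_
    rw [← sq, ← sq_abs]
    exact pow_le_pow_left₀ (abs_nonneg _) (hB x) 2
  nlinarith [mul_self_nonneg (Ex f)]

theorem weak_mix (d : ℕ) (f : (ι → ℤˣ) → ℝ) (hd : ∀ S : Finset ι, d < S.card → fc f S = 0)
    (hB : ∀ x, |f x| ≤ 1) (k r : ℕ) (C : κ → Finset ι) (hC : ∀ a, (C a).card ≤ k)
    (J Q : κ → (ι → ℤˣ) → ℝ) (hJ : ∀ a x y, (∀ i ∈ C a, x i = y i) → J a x = J a y)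
    (hr : ∀ a, ∀ S : Finset ι, r < S.card → fc (Q a) S = 0)
    (hclose : Ex (fun x => (f x - mix J Q x) ^ 2) ≤ Cov f f / 4)
    (Λ : ℝ) (hΛ : ∑ a, Ex (fun x => |J a x * Q a x|) ≤ Λ)
    (M2 : ℝ) (hM : ∀ l, Inf f l ≤ M2) (hM0 : 0 ≤ M2) :
    Cov f f ^ 5 ≤ 2 ^ 24 * 729 ^ r * ((k : ℝ) ^ 3 * (d : ℝ) ^ 2 * Λ ^ 2
      + (d : ℝ) ^ 6 * Λ ^ 4) * M2 := by
  have hpar := weak_mix_param d f hd hB k r C hC J Q hJ hr hclose Λ hΛ M2 hM hM0
  have hV0 := Cov_self_nonneg f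
  have hV1 : Cov f f ≤ 1 := by
    have := Cov_self_le f 1 hB
    simpa using this
  have hΛ0 : 0 ≤ Λ :=
    (Finset.sum_nonneg fun a _ => Ex_nonneg fun _ => abs_nonneg _).trans hΛ
  set V := Cov f f with hV
  rcases hV0.eq_or_lt with h0 | hVpos
  · rw [← h0, zero_pow (by norm_num)]; positivity
  · -- `d` is positive
    have hdpos : 0 < d := by
      rcases Nat.eq_zero_or_pos d with h | h
      · exfalso
        subst h
        have : Cov f f = 0 := by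
          rw [Cov_eq]
          refine Finset.sum_eq_zero fun S hS => ?_
          have h2 : fc f S = 0 := hd S (Finset.card_pos.2
            (Finset.nonempty_iff_ne_empty.2 (Finset.ne_of_mem_erase hS)))
          rw [h2, zero_mul]
        rw [← hV] at this
        exact hVpos.ne' this
      · exact h
    have hdR : (0 : ℝ) < d := by exact_mod_cast hdpos
    have h9 : (0 : ℝ) < 9 ^ r := by positivity
    have h81 : (0 : ℝ) < 81 ^ r := by positivity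
    have h729 : (0 : ℝ) < 729 ^ r := by positivity
    have e81 : (81 : ℝ) ^ r = 9 ^ r * 9 ^ r := by rw [← mul_pow]; norm_num
    have e729 : (729 : ℝ) ^ r = 9 ^ r * 9 ^ r * 9 ^ r := by rw [← mul_pow, ← mul_pow]; norm_num
    have h91 : (1 : ℝ) ≤ 9 ^ r := one_le_pow₀ (by norm_num)
    -- the case `Λ = 0`
    rcases hΛ0.eq_or_lt with hz | hΛpos
    · exfalso
      rcases Nat.eq_zero_or_pos k with hk | hk
      · have := hpar 1 1 (V / (64 * (d : ℝ) ^ 2)) 1 one_pos one_pos (by positivity) one_pos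
        rw [← hz, hk] at this
        have e : 2 * (2 * (d : ℝ) ^ 2 * (V / (64 * (d : ℝ) ^ 2))) = V / 16 := by
          field_simp; norm_num
        simp at this
        nlinarith
      · have hkR : (0 : ℝ) < k := by exact_mod_cast hk
        have := hpar (V / (128 * k * (d : ℝ) ^ 2)) 1 (V / (64 * (d : ℝ) ^ 2)) 1
          (by positivity) one_pos (by positivity) one_pos
        rw [← hz] at this
        have e : 2 * (2 * (d : ℝ) ^ 2 * (V / (64 * (d : ℝ) ^ 2))) = V / 16 := by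
          field_simp; norm_num
        have e2 : 2 * (4 * (k : ℝ) * (d : ℝ) ^ 2 * (V / (128 * k * (d : ℝ) ^ 2))) = V / 16 := by
          field_simp; norm_num
        simp at this
        nlinarith
    · -- parameters
      have hβ : 0 < V / (64 * (d : ℝ) ^ 2) := by positivity
      have hs : 0 < V ^ 4 / (2 ^ 23 * 81 ^ r * (d : ℝ) ^ 6 * Λ ^ 2) := by positivity
      have eβ : 2 * (2 * (d : ℝ) ^ 2 * (V / (64 * (d : ℝ) ^ 2))) = V / 16 := by
        field_simp; norm_num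
      have es : 2 * (9 ^ r * (V ^ 4 / (2 ^ 23 * 81 ^ r * (d : ℝ) ^ 6 * Λ ^ 2)) * (9 ^ r * Λ ^ 2)
          / (V / (64 * (d : ℝ) ^ 2)) ^ 3) = V / 16 := by
        rw [e81]; field_simp; norm_num
      have eL2 : 9 ^ r * Λ ^ 2 / (V ^ 4 / (2 ^ 23 * 81 ^ r * (d : ℝ) ^ 6 * Λ ^ 2))
          = 2 ^ 23 * 729 ^ r * (d : ℝ) ^ 6 * Λ ^ 4 / V ^ 4 := by
        rw [e81, e729]; field_simp
      rcases Nat.eq_zero_or_pos k with hk | hk
      · have h1 := hpar 1 1 _ _ one_pos one_pos hβ hs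
        rw [eL2, hk] at h1
        simp only [Nat.cast_zero, mul_zero, zero_mul, zero_div, zero_add] at h1
        have h2 : V / 2 ≤ 2 ^ 23 * 729 ^ r * (d : ℝ) ^ 6 * Λ ^ 4 / V ^ 4 * M2 := by
          nlinarith
        have h3 : V / 2 * V ^ 4 ≤ 2 ^ 23 * 729 ^ r * (d : ℝ) ^ 6 * Λ ^ 4 * M2 := by
          rw [div_mul_eq_mul_div, le_div_iff₀ (by positivity)] at h2
          exact h2
        rw [hk]
        simp only [Nat.cast_zero]
        nlinarith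
      · have hkR : (0 : ℝ) < k := by exact_mod_cast hk
        have hτ : 0 < V / (128 * k * (d : ℝ) ^ 2) := by positivity
        have hθ : 0 < V ^ 2 / (8192 * 9 ^ r * (k : ℝ) ^ 2 * (d : ℝ) ^ 2 * Λ) := by positivity
        have h1 := hpar _ _ _ _ hτ hθ hβ hs
        have eτ : 2 * (4 * (k : ℝ) * (d : ℝ) ^ 2 * (V / (128 * k * (d : ℝ) ^ 2))) = V / 16 := by
          field_simp; norm_num
        have eθ : 2 * (2 * 9 ^ r * (V ^ 2 / (8192 * 9 ^ r * (k : ℝ) ^ 2 * (d : ℝ) ^ 2 * Λ)) * k * Λ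
            / (V / (128 * k * (d : ℝ) ^ 2))) = V / 16 := by
          field_simp; norm_num
        have eL1 : (k : ℝ) * Λ / (V ^ 2 / (8192 * 9 ^ r * (k : ℝ) ^ 2 * (d : ℝ) ^ 2 * Λ))
            = 8192 * 9 ^ r * (k : ℝ) ^ 3 * (d : ℝ) ^ 2 * Λ ^ 2 / V ^ 2 := by
          field_simp
        rw [eL1, eL2] at h1
        have h2 : V / 2 ≤ (8192 * 9 ^ r * (k : ℝ) ^ 3 * (d : ℝ) ^ 2 * Λ ^ 2 / V ^ 2
            + 2 ^ 23 * 729 ^ r * (d : ℝ) ^ 6 * Λ ^ 4 / V ^ 4) * M2 := by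
          nlinarith
        have h3 : V / 2 * V ^ 4 ≤ (8192 * 9 ^ r * (k : ℝ) ^ 3 * (d : ℝ) ^ 2 * Λ ^ 2 * V ^ 2
            + 2 ^ 23 * 729 ^ r * (d : ℝ) ^ 6 * Λ ^ 4) * M2 := by
          have h4 := mul_le_mul_of_nonneg_right h2 (by positivity : 0 ≤ V ^ 4)
          refine h4.trans_eq ?_
          field_simp
        have h5 : 8192 * 9 ^ r * (k : ℝ) ^ 3 * (d : ℝ) ^ 2 * Λ ^ 2 * V ^ 2
            ≤ 2 ^ 23 * 729 ^ r * ((k : ℝ) ^ 3 * (d : ℝ) ^ 2 * Λ ^ 2) := by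
          have hV2 : V ^ 2 ≤ 1 := pow_le_one₀ hVpos.le hV1
          have h6 : (9 : ℝ) ^ r ≤ 729 ^ r := pow_le_pow_left₀ (by norm_num) (by norm_num) r
          have h7 : (0 : ℝ) ≤ (k : ℝ) ^ 3 * (d : ℝ) ^ 2 * Λ ^ 2 := by positivity
          calc 8192 * 9 ^ r * (k : ℝ) ^ 3 * (d : ℝ) ^ 2 * Λ ^ 2 * V ^ 2
              ≤ 8192 * 9 ^ r * (k : ℝ) ^ 3 * (d : ℝ) ^ 2 * Λ ^ 2 * 1 :=
                mul_le_mul_of_nonneg_left hV2 (by positivity)
            _ = 8192 * (9 ^ r * ((k : ℝ) ^ 3 * (d : ℝ) ^ 2 * Λ ^ 2)) := by ring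
            _ ≤ 2 ^ 23 * (729 ^ r * ((k : ℝ) ^ 3 * (d : ℝ) ^ 2 * Λ ^ 2)) :=
                mul_le_mul (by norm_num) (mul_le_mul_of_nonneg_right h6 h7) (by positivity)
                  (by positivity)
            _ = _ := by ring
        have h8 : (8192 * 9 ^ r * (k : ℝ) ^ 3 * (d : ℝ) ^ 2 * Λ ^ 2 * V ^ 2
            + 2 ^ 23 * 729 ^ r * (d : ℝ) ^ 6 * Λ ^ 4) * M2 ≤
            (2 ^ 23 * 729 ^ r * ((k : ℝ) ^ 3 * (d : ℝ) ^ 2 * Λ ^ 2)
            + 2 ^ 23 * 729 ^ r * (d : ℝ) ^ 6 * Λ ^ 4) * M2 :=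
          mul_le_mul_of_nonneg_right (by linarith) hM0
        calc V ^ 5 = 2 * (V / 2 * V ^ 4) := by ring
          _ ≤ 2 * ((2 ^ 23 * 729 ^ r * ((k : ℝ) ^ 3 * (d : ℝ) ^ 2 * Λ ^ 2)
            + 2 ^ 23 * 729 ^ r * (d : ℝ) ^ 6 * Λ ^ 4) * M2) := by linarith
          _ = _ := by ring

end Pool.Agent.H746R2.AA
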